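import Pool.Agent.Run7.h522.BD.LS

/-!
# The large sieve for integers without small prime factors, II
-/

set_option autoImplicit false

namespace Run7.h522.BD

open Finset Pool.Agent.Helper112 Pool.Agent.Helper112.MLS

open Classical in
/-- The characters modulo `m` of conductor `d`, weighted. -/
noncomputable def HH (N : ℕ) (α : ℕ → ℂ) (m d : ℕ) : ℝ :=
  if h : m = 0 then 0 else
    haveI : NeZero m := ⟨h⟩
    ∑ ξ ∈ (univ : Finset (DirichletCharacter ℂ m)).filter (fun ξ => ξ.conductor = d), GG N α m ξ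

lemma HH_of_pos (N : ℕ) (α : ℕ → ℂ) (m d : ℕ) [NeZero m] :
    HH N α m d = ∑ ξ ∈ (univ : Finset (DirichletCharacter ℂ m)).filter
      (fun ξ => ξ.conductor = d), GG N α m ξ := by
  classical
  unfold HH
  rw [dif_neg (NeZero.ne m)]

lemma HH_nonneg (N : ℕ) (α : ℕ → ℂ) (m d : ℕ) : 0 ≤ HH N α m d := by
  classical
  by_cases h : m = 0
  · unfold HH
    rw [dif_pos h]
  · have : NeZero m := ⟨h⟩
    rw [HH_of_pos]
    exact sum_nonneg fun ξ _ => GG_nonneg N α ξ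

lemma HH_fiber (N : ℕ) (α : ℕ → ℂ) {m R : ℕ} (hm : m ∈ Icc 1 R) (hα : ∀ n, α n ≠ 0 → n.Coprime m) :
    ∑ d ∈ Icc 1 R, HH N α m d = Nat.totient m * ∑ a ∈ (range m).filter (fun a => a.Coprime m),
        ‖∑ n ∈ Icc 1 N, α n * ee (n * a / m)‖ ^ 2 := by
  classical
  rw [mem_Icc] at hm
  have : NeZero m := ⟨by omega⟩
  rw [← sum_GG N α hα]
  simp_rw [HH_of_pos]
  refine sum_fiberwise_of_maps_to (fun ξ _ => ?_) _
  rw [mem_Icc]
  have h1 := DirichletCharacter.conductor_dvd_level ξ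
  have h2 := Nat.le_of_dvd (by omega) h1
  have h3 : ξ.conductor ≠ 0 := fun h => by
    rw [h, zero_dvd_iff] at h1
    omega
  omega

/-- The sum over the primitive characters. -/
noncomputable def PP (B : Finset ℕ) (b : ℕ → ℂ) (q : ℕ) [NeZero q] : ℝ := by
  classical
  exact ∑ χ ∈ (univ : Finset (DirichletCharacter ℂ q)).filter (fun χ => χ.IsPrimitive),
    ‖∑ n ∈ B, b n * χ (n : ZMod q)‖ ^ 2

lemma PP_nonneg (B : Finset ℕ) (b : ℕ → ℂ) (q : ℕ) [NeZero q] : 0 ≤ PP B b q := by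
  unfold PP
  exact sum_nonneg fun _ _ => by positivity

/-- The weights. -/
lemma wt_ge (q X : ℕ) (hq : 1 ≤ q) :
    Real.log ((X : ℝ) + 1) / 2 ≤
      ∑ k ∈ (Icc 1 X).filter (fun k => Squarefree k ∧ Nat.Coprime k q),
        (q : ℝ) / Nat.totient (q * k) := by
  have h1 := Pool.Agent.Helper601.sum_inv_le_two_mul q X
  have h2 := Pool.Agent.H692R2.USS.t1_sum_inv_coprime_ge hq X
  have h3 := log_add_one_le_harmonic X
  rw [harmonic_eq_sum_Icc] at h3
  push_cast at h3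
  have hq0 : (0 : ℝ) < q := by exact_mod_cast hq
  have ht0 : (0 : ℝ) < Nat.totient q := by exact_mod_cast Nat.totient_pos.2 hq
  have h4 : (q : ℝ) / Nat.totient q *
      (∑ l ∈ (Icc 1 X).filter (fun l => Squarefree l ∧ Nat.Coprime l q), (l : ℝ)⁻¹) ≤
      ∑ k ∈ (Icc 1 X).filter (fun k => Squarefree k ∧ Nat.Coprime k q),
        (q : ℝ) / Nat.totient (q * k) := by
    rw [mul_sum]
    refine sum_le_sum fun k hk => ?_
    rw [mem_filter, mem_Icc] at hk
    have hk0 : (0 : ℝ) < k := by exact_mod_cast hk.1.1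
    have h5 : Nat.totient (q * k) = Nat.totient q * Nat.totient k :=
      Nat.totient_mul hk.2.2.symm
    have h6 : (0 : ℝ) < Nat.totient k := by exact_mod_cast Nat.totient_pos.2 hk.1.1
    have h7 : (Nat.totient k : ℝ) ≤ k := by exact_mod_cast Nat.totient_le k
    rw [h5]
    push_cast
    rw [div_mul_eq_mul_div, div_le_div_iff₀ ht0 (by positivity)]
    calc (q : ℝ) * (k : ℝ)⁻¹ * (Nat.totient q * Nat.totient k)
        = (q * Nat.totient q) * ((k : ℝ)⁻¹ * Nat.totient k) := by ring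
      _ ≤ (q * Nat.totient q) * 1 := by
          refine mul_le_mul_of_nonneg_left ?_ (by positivity)
          rw [inv_mul_eq_div, div_le_one hk0]
          exact h7
      _ = _ := by ring
  refine le_trans ?_ h4
  have h5 : (q : ℝ) / Nat.totient q * ((Nat.totient q : ℝ) / q) = 1 := by
    field_simp
  have h6 : Real.log ((X : ℝ) + 1) ≤ (q : ℝ) / Nat.totient q *
      (((Nat.totient q : ℝ) / q) * (∑ n ∈ Icc 1 X, (n : ℝ)⁻¹)) := by
    rw [← mul_assoc, h5, one_mul]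
    exact h3
  have h7 := mul_le_mul_of_nonneg_left (h2.trans h1) (by positivity : (0 : ℝ) ≤ (q : ℝ) / Nat.totient q)
  linarith

lemma step (M N R X q : ℕ) [NeZero q] {B : Finset ℕ} (hB : B ⊆ Ioc M (M + N)) (b : ℕ → ℂ)
    (hX : q * X ≤ R) (hcop : ∀ n ∈ B, ∀ m ∈ Icc 1 R, n.Coprime m) :
    Real.log ((X : ℝ) + 1) / 2 * PP B b q ≤
      ∑ m ∈ Icc 1 R, (1 / (Nat.totient m : ℝ)) * HH (M + N) (ex B b) m q := by
  classical
  have hq0 : 1 ≤ q := Nat.one_le_iff_ne_zero.2 (NeZero.ne q)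
  have hB2 : B ⊆ Icc 1 (M + N) := fun n hn => by
    have := mem_Ioc.1 (hB hn)
    rw [mem_Icc]
    omega
  have h1 := mul_le_mul_of_nonneg_right (wt_ge q X hq0) (PP_nonneg B b q)
  refine h1.trans ?_
  rw [sum_mul]
  set K := (Icc 1 X).filter (fun k => Squarefree k ∧ Nat.Coprime k q) with hK
  have hinj : Set.InjOn (fun k => q * k) (K : Set ℕ) := fun x _ y _ h =>
    Nat.eq_of_mul_eq_mul_left (by omega) h
  have himg : K.image (fun k => q * k) ⊆ Icc 1 R := by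
    intro m hm
    rw [mem_image] at hm
    obtain ⟨k, hk, rfl⟩ := hm
    rw [hK, mem_filter, mem_Icc] at hk
    rw [mem_Icc]
    refine ⟨Nat.mul_pos hq0 hk.1.1, le_trans (Nat.mul_le_mul_left q hk.1.2) hX⟩
  refine le_trans ?_ (sum_le_sum_of_subset_of_nonneg himg fun m _ _ =>
    mul_nonneg (by positivity) (HH_nonneg _ _ _ _))
  rw [sum_image hinj]
  refine sum_le_sum fun k hk => ?_
  have hk' := hk
  rw [hK, mem_filter, mem_Icc] at hk
  have : NeZero k := ⟨by omega⟩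
  have : NeZero (q * k) := ⟨Nat.mul_ne_zero (NeZero.ne q) (NeZero.ne k)⟩
  rw [HH_of_pos]
  have hkR : k ∈ Icc 1 R := by
    rw [mem_Icc]
    exact ⟨hk.1.1, le_trans hk.1.2 (le_trans (Nat.le_mul_of_pos_left X hq0) hX)⟩
  have h2 := prim_le (q := q) (k := k) (M + N) (ex B b) hk.2.1 hk.2.2.symm (fun n hn => by
    refine hcop n ?_ k hkR
    by_contra h
    exact hn (ex_not b h))
  have h3 : (q : ℝ) * PP B b q ≤ ∑ ξ ∈ (univ : Finset (DirichletCharacter ℂ (q * k))).filter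
      (fun ξ => ξ.conductor = q), GG (M + N) (ex B b) (q * k) ξ := by
    refine le_trans (le_of_eq ?_) h2
    unfold PP
    rw [mul_sum]
    refine sum_congr rfl fun χ _ => ?_
    rw [sum_ex b hB2]
  calc (q : ℝ) / Nat.totient (q * k) * PP B b q
      = 1 / (Nat.totient (q * k) : ℝ) * (q * PP B b q) := by ring
    _ ≤ _ := mul_le_mul_of_nonneg_left h3 (by positivity)

/-- The large sieve of Bombieri and Davenport. -/
theorem bd (M N Q R : ℕ) (hQR : Q ≤ R) {B : Finset ℕ} (hB : B ⊆ Ioc M (M + N))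
    (b : ℕ → ℂ) (hcop : ∀ n ∈ B, ∀ m ∈ Icc 1 R, n.Coprime m) :
    Real.log (((R / Q : ℕ) : ℝ) + 1) / 2 * ∑ q ∈ range Q, PP B b (q + 1) ≤
      6 * (N + (R : ℝ) ^ 2) * ∑ n ∈ B, ‖b n‖ ^ 2 := by
  classical
  rw [mul_sum]
  have h1 : ∑ q ∈ range Q, Real.log (((R / Q : ℕ) : ℝ) + 1) / 2 * PP B b (q + 1) ≤
      ∑ q ∈ range Q, ∑ m ∈ Icc 1 R, (1 / (Nat.totient m : ℝ)) * HH (M + N) (ex B b) m (q + 1) := by
    refine sum_le_sum fun q hq => ?_
    rw [mem_range] at hq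
    refine step M N R (R / Q) (q + 1) hB b ?_ hcop
    exact le_trans (Nat.mul_le_mul_right _ hq) (Nat.mul_div_le R Q)
  refine h1.trans ?_
  have h2 : ∑ q ∈ range Q, ∑ m ∈ Icc 1 R, (1 / (Nat.totient m : ℝ)) *
      HH (M + N) (ex B b) m (q + 1) ≤
      ∑ d ∈ Icc 1 R, ∑ m ∈ Icc 1 R, (1 / (Nat.totient m : ℝ)) * HH (M + N) (ex B b) m d := by
    rw [← sum_image (f := fun d => ∑ m ∈ Icc 1 R, (1 / (Nat.totient m : ℝ)) *
      HH (M + N) (ex B b) m d) (g := fun q : ℕ => q + 1) (fun x _ y _ h => by simpa using h)]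
    refine sum_le_sum_of_subset_of_nonneg ?_ fun d _ _ => sum_nonneg fun m _ =>
      mul_nonneg (by positivity) (HH_nonneg _ _ _ _)
    intro d hd
    rw [mem_image] at hd
    obtain ⟨q, hq, rfl⟩ := hd
    rw [mem_range] at hq
    rw [mem_Icc]
    omega
  refine h2.trans ?_
  rw [sum_comm]
  have h3 : ∀ m ∈ Icc 1 R, ∑ d ∈ Icc 1 R, (1 / (Nat.totient m : ℝ)) * HH (M + N) (ex B b) m d =
      ∑ a ∈ (range m).filter (fun a => a.Coprime m),
        ‖∑ n ∈ Icc 1 (M + N), ex B b n * ee (n * a / m)‖ ^ 2 := by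
    intro m hm
    rw [← mul_sum, HH_fiber (M + N) (ex B b) hm (fun n hn => hcop n (by
      by_contra h
      exact hn (ex_not b h)) m hm), ← mul_assoc]
    rw [mem_Icc] at hm
    have ht0 : (0 : ℝ) < Nat.totient m := by exact_mod_cast Nat.totient_pos.2 hm.1
    rw [one_div, inv_mul_cancel₀ ht0.ne', one_mul]
  rw [sum_congr rfl h3]
  exact add_ls M N R hB b

end Run7.h522.BD
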