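import Pool.Agent.CG3.Planch

/-!
# Gallagher's lemma
-/

set_option autoImplicit false

namespace Run7.h522.BD

open MeasureTheory

variable {ι : Type}

/-- The sum over the window of length `h` at `u`. -/
noncomputable def wf (F : Finset ι) (c : ι → ℂ) (x : ι → ℝ) (h u : ℝ) : ℂ :=
  ∑ n ∈ F, (Set.Ico (x n - h) (x n)).indicator (fun _ => c n) u

/-- The exponential sum. -/
noncomputable def es (F : Finset ι) (c : ι → ℂ) (x : ι → ℝ) (t : ℝ) : ℂ :=
  ∑ n ∈ F, c n * Complex.exp (((-(2 * Real.pi * x n * t) : ℝ) : ℂ) * Complex.I)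

lemma memLp_wf (F : Finset ι) (c : ι → ℂ) (x : ι → ℝ) (h : ℝ) (p : ENNReal) :
    MemLp (wf F c x h) p := by
  have h1 : wf F c x h = fun u => ∑ n ∈ F, (Set.Ico (x n - h) (x n)).indicator (fun _ => c n) u := rfl
  rw [h1]
  exact memLp_finsetSum F fun n _ => memLp_indicator_const p measurableSet_Ico (c n)
    (Or.inr (by rw [Real.volume_Ico]; exact ENNReal.ofReal_ne_top))

/-- The kernel. -/
noncomputable def kk (h t : ℝ) : ℂ :=
  ∫ s in (-h)..0, Complex.exp (((-(2 * Real.pi * s * t) : ℝ) : ℂ) * Complex.I)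

lemma cont_e (t : ℝ) : Continuous fun s : ℝ =>
    Complex.exp (((-(2 * Real.pi * s * t) : ℝ) : ℂ) * Complex.I) := by
  fun_prop

lemma kk_ge {h t : ℝ} (hh : 0 ≤ h) (ht : |t| * (8 * h) ≤ 1) : h / 2 ≤ ‖kk h t‖ := by
  refine le_trans ?_ (Complex.re_le_norm _)
  unfold kk
  have h1 : (∫ s in (-h)..0, Complex.exp (((-(2 * Real.pi * s * t) : ℝ) : ℂ) * Complex.I)).re =
      ∫ s in (-h)..0, Real.cos (2 * Real.pi * s * t) := by
    have h2 := Complex.reCLM.intervalIntegral_comp_comm (μ := volume)
      ((cont_e t).intervalIntegrable (-h) 0)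
    rw [Complex.reCLM_apply] at h2
    rw [← h2]
    refine intervalIntegral.integral_congr fun s _ => ?_
    simp only [Complex.reCLM_apply]
    rw [Complex.exp_ofReal_mul_I_re, Real.cos_neg]
  rw [h1]
  have h3 : ∫ s in (-h)..0, (1 / 2 : ℝ) = h / 2 := by
    rw [intervalIntegral.integral_const, smul_eq_mul]
    ring
  rw [← h3]
  refine intervalIntegral.integral_mono_on (by linarith) (by simp) ?_ fun s hs => ?_
  · exact (Continuous.intervalIntegrable (by fun_prop) _ _)
  · rw [Set.mem_Icc] at hs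
    have hpi := Real.pi_lt_d2
    have hpi0 := Real.pi_pos
    have h4 : |2 * Real.pi * s * t| ≤ 1 := by
      rw [abs_mul, abs_mul, abs_mul, abs_of_pos hpi0, abs_two]
      have h5 : |s| ≤ h := abs_le.2 ⟨by linarith, by linarith⟩
      have h6 : |s| * |t| ≤ 1 / 8 := by
        have := mul_le_mul_of_nonneg_right h5 (abs_nonneg t)
        linarith
      have h7 : 0 ≤ |s| * |t| := by positivity
      nlinarith
    have h5 := Real.one_sub_sq_div_two_le_cos (x := 2 * Real.pi * s * t)
    have h6 : (2 * Real.pi * s * t) ^ 2 ≤ 1 := by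
      rw [← sq_abs]
      exact pow_le_one₀ (abs_nonneg _) h4
    linarith

lemma fourier_wf (F : Finset ι) (c : ι → ℂ) (x : ι → ℝ) {h : ℝ} (hh : 0 ≤ h) (t : ℝ) :
    FourierTransform.fourier (wf F c x h) t = es F c x t * kk h t := by
  rw [Real.fourier_eq']
  unfold es wf
  simp_rw [Finset.smul_sum]
  rw [integral_finsetSum, Finset.sum_mul]
  · refine Finset.sum_congr rfl fun n _ => ?_
    have e1 : ∀ v : ℝ, Complex.exp (((-2 * Real.pi * (inner ℝ v t) : ℝ) : ℂ) * Complex.I) •
        (Set.Ico (x n - h) (x n)).indicator (fun _ => c n) v =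
        (Set.Ico (x n - h) (x n)).indicator (fun v : ℝ =>
          Complex.exp (((-(2 * Real.pi * v * t) : ℝ) : ℂ) * Complex.I) * c n) v := by
      intro v
      have hin : (inner ℝ v t : ℝ) = v * t := by
        simp [mul_comm]
      by_cases hv : v ∈ Set.Ico (x n - h) (x n)
      · rw [Set.indicator_of_mem hv, Set.indicator_of_mem hv, hin, smul_eq_mul]
        congr 3
        push_cast
        ring
      · rw [Set.indicator_of_notMem hv, Set.indicator_of_notMem hv, smul_zero]
    simp_rw [e1]
    rw [integral_indicator measurableSet_Ico, integral_Ico_eq_integral_Ioc,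
      ← intervalIntegral.integral_of_le (by linarith), intervalIntegral.integral_mul_const]
    have h2 : ∫ v in (x n - h)..(x n), Complex.exp (((-(2 * Real.pi * v * t) : ℝ) : ℂ) * Complex.I) =
        Complex.exp (((-(2 * Real.pi * x n * t) : ℝ) : ℂ) * Complex.I) * kk h t := by
      have h3 := intervalIntegral.integral_comp_add_right (a := -h) (b := 0)
        (fun v : ℝ => Complex.exp (((-(2 * Real.pi * v * t) : ℝ) : ℂ) * Complex.I)) (x n)
      rw [zero_add, neg_add_eq_sub] at h3
      rw [← h3]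
      unfold kk
      rw [← intervalIntegral.integral_const_mul]
      refine intervalIntegral.integral_congr fun s _ => ?_
      rw [← Complex.exp_add]
      congr 1
      push_cast
      ring
    rw [h2]
    ring
  · intro n _
    have h1 : Integrable ((Set.Ico (x n - h) (x n)).indicator (fun _ => c n)) volume := by
      rw [integrable_indicator_iff measurableSet_Ico]
      exact integrableOn_const (by rw [Real.volume_Ico]; exact ENNReal.ofReal_ne_top)
    refine h1.norm.mono' ?_ (Filter.Eventually.of_forall fun v => ?_)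
    · have h5 : AEStronglyMeasurable (fun v : ℝ =>
          Complex.exp (((-2 * Real.pi * (inner ℝ v t) : ℝ) : ℂ) * Complex.I)) volume := by
        refine Continuous.aestronglyMeasurable ?_
        fun_prop
      exact h5.smul h1.aestronglyMeasurable
    · rw [norm_smul, Complex.norm_exp_ofReal_mul_I, one_mul]

/-- **Gallagher's lemma.** -/
theorem gallagher (F : Finset ι) (c : ι → ℂ) (x : ι → ℝ) {h : ℝ} (hh : 0 < h) :
    ENNReal.ofReal ((h / 2) ^ 2) *
      ∫⁻ t in Set.Icc (-(1 / (8 * h))) (1 / (8 * h)), ‖es F c x t‖ₑ ^ 2 ≤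
      ∫⁻ u, ‖wf F c x h u‖ₑ ^ 2 := by
  have hi := (memLp_one_iff_integrable.1 (memLp_wf F c x h 1))
  rw [← CG3.aux_plancherel (wf F c x h) hi (memLp_wf F c x h 2)]
  rw [← lintegral_const_mul' _ _ ENNReal.ofReal_ne_top]
  refine (lintegral_mono_ae ?_).trans (setLIntegral_le_lintegral _ _)
  refine (ae_restrict_mem measurableSet_Icc).mono fun t ht => ?_
  rw [fourier_wf F c x hh.le t, enorm_mul, mul_pow, mul_comm]
  refine mul_le_mul_right ?_ _
  rw [← ofReal_norm, ← ENNReal.ofReal_pow (norm_nonneg _)]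
  refine ENNReal.ofReal_le_ofReal (pow_le_pow_left₀ (by linarith) (kk_ge hh.le ?_) 2)
  rw [Set.mem_Icc, ← abs_le] at ht
  rwa [← le_div_iff₀ (by linarith)]

end Run7.h522.BD
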