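import Pool.Agent.Run7.h522.BD.BD
import Pool.Agent.Run7.h522.BD.Gal

/-!
# The hybrid large sieve for sums over primes
-/

set_option autoImplicit false

namespace Run7.h522.BD

open Finset MeasureTheory

/-- The frequencies. -/
noncomputable def xp (p : ℕ) : ℝ := Real.log p / (2 * Real.pi)

lemma exp_win {T : ℝ} (hT : 1 ≤ T) : Real.exp (2 * Real.pi * (1 / (8 * T))) ≤ 1 + 3 / (2 * T) := by
  have hpi := Real.pi_lt_d2
  have hpi0 := Real.pi_pos
  have hT0 : 0 < T := by linarith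
  set x : ℝ := 2 * Real.pi * (1 / (8 * T)) with hx
  have hx0 : 0 < x := by positivity
  have hx1 : x ≤ 79 / 100 * (1 / T) := by
    rw [hx]
    have : 2 * Real.pi * (1 / (8 * T)) = Real.pi / 4 * (1 / T) := by
      field_simp
      norm_num
    rw [this]
    refine mul_le_mul_of_nonneg_right (by linarith) (by positivity)
  have hT1 : 1 / T ≤ 1 := by
    rw [div_le_one hT0]
    exact hT
  have h1 := Real.abs_exp_sub_one_sub_id_le (x := x) (by
    rw [abs_of_pos hx0]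
    nlinarith)
  have h2 := (abs_le.1 h1).2
  have h3 : 3 / (2 * T) = 3 / 2 * (1 / T) := by
    field_simp
  rw [h3]
  have h4 : 0 < 1 / T := by positivity
  nlinarith

lemma log_third {p : ℕ} (hp : 4 ≤ p) {U : ℝ} (hU : (p : ℝ) ≤ 3 * U) :
    Real.log p ≤ 5 * Real.log U := by
  have hp0 : (4 : ℝ) ≤ p := by exact_mod_cast hp
  have hU0 : 0 < U := by linarith
  have h1 : Real.log (U ^ 5) = 5 * Real.log U := by
    rw [Real.log_pow]
    norm_num
  rw [← h1]
  refine Real.log_le_log (by linarith) ?_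
  have h2 : ((p : ℝ) / 3) ^ 5 ≤ U ^ 5 := pow_le_pow_left₀ (by positivity) (by linarith) 5
  refine le_trans ?_ h2
  have h3 : (256 : ℝ) ≤ (p : ℝ) ^ 4 := by
    calc (256 : ℝ) = 4 ^ 4 := by norm_num
      _ ≤ _ := pow_le_pow_left₀ (by norm_num) hp0 4
  have h4 : ((p : ℝ) / 3) ^ 5 = (p : ℝ) * ((p : ℝ) ^ 4 / 243) := by ring
  rw [h4]
  have h5 : (1 : ℝ) ≤ (p : ℝ) ^ 4 / 243 := by
    rw [le_div_iff₀ (by norm_num)]
    linarith
  nlinarith

/-- The bound for one window. -/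
lemma win {Q : ℕ} (hQ : 1 ≤ Q) {T : ℝ} (hT : 1 ≤ T) {W : Finset ℕ} (b : ℕ → ℂ) (u : ℝ)
    (hW : ∀ p ∈ W, p.Prime ∧ 4 * ((Q : ℝ) ^ 2 * T) ^ 2 ≤ p ∧
      u ∈ Set.Ico (xp p - 1 / (8 * T)) (xp p)) :
    ∑ q ∈ range Q, PP W b (q + 1) ≤
      ∑ p ∈ W, 840 * ((p : ℝ) / (T * Real.log p)) * ‖b p‖ ^ 2 := by
  classical
  rcases W.eq_empty_or_nonempty with h0 | ⟨p₀, hp₀⟩
  · subst h0
    unfold PP
    simp
  have hT0 : 0 < T := by linarith
  have hpi0 := Real.pi_pos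
  have hQ1 : (1 : ℝ) ≤ Q := by exact_mod_cast hQ
  set U : ℝ := Real.exp (2 * Real.pi * u) with hU
  have hU0 : 0 < U := Real.exp_pos _
  set P : ℝ := (Q : ℝ) ^ 2 * T with hP
  have hQ2 : (1 : ℝ) ≤ (Q : ℝ) ^ 2 := one_le_pow₀ hQ1
  have hP1 : 1 ≤ P := by nlinarith
  have hTP : T ≤ P := by nlinarith
  have hlt : ∀ p ∈ W, U < p := by
    intro p hp
    obtain ⟨h1, -, h3⟩ := hW p hp
    have hp0 : (0 : ℝ) < p := by exact_mod_cast h1.pos
    have h4 : u < Real.log p / (2 * Real.pi) := h3.2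
    rw [lt_div_iff₀ (by positivity)] at h4
    rw [hU, ← Real.lt_log_iff_exp_lt hp0]
    linarith
  have hle : ∀ p ∈ W, (p : ℝ) ≤ U * Real.exp (2 * Real.pi * (1 / (8 * T))) := by
    intro p hp
    obtain ⟨h1, -, h3⟩ := hW p hp
    have hp0 : (0 : ℝ) < p := by exact_mod_cast h1.pos
    have h4 : Real.log p / (2 * Real.pi) ≤ u + 1 / (8 * T) := by
      have := h3.1
      unfold xp at this
      linarith
    rw [div_le_iff₀ (by positivity)] at h4
    rw [hU, ← Real.exp_add, ← Real.log_le_iff_le_exp hp0]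
    linarith
  have hex := exp_win hT
  have h3T : 3 / (2 * T) ≤ 3 / 2 := by
    rw [div_le_div_iff₀ (by positivity) (by norm_num)]
    linarith
  have hle3 : ∀ p ∈ W, (p : ℝ) ≤ 3 * U := by
    intro p hp
    refine (hle p hp).trans ?_
    nlinarith
  have hU1 : 4 / 3 * P ^ 2 ≤ U := by
    have h1 := (hW p₀ hp₀).2.1
    have h2 := hle3 p₀ hp₀
    linarith
  have hUP : P ≤ U := by nlinarith
  have hU1' : 1 < U := by nlinarith
  have hUT : 1 ≤ U / T := by
    rw [le_div_iff₀ hT0]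
    linarith
  have hUP2 : U ≤ (U / P) ^ 2 := by
    rw [div_pow, le_div_iff₀ (by positivity)]
    nlinarith
  set V : ℝ := U * Real.exp (2 * Real.pi * (1 / (8 * T))) with hV
  have hUV : U ≤ V := by
    rw [hV]
    have := Real.one_le_exp (x := 2 * Real.pi * (1 / (8 * T))) (by positivity)
    nlinarith
  set M := ⌊U⌋₊ with hM
  have hMV : M ≤ ⌊V⌋₊ := Nat.floor_le_floor hUV
  set N := ⌊V⌋₊ - M with hN
  have hN1 : (N : ℝ) ≤ 5 / 2 * (U / T) := by
    rw [hN, Nat.cast_sub hMV]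
    have h1 : (⌊V⌋₊ : ℝ) ≤ V := Nat.floor_le (by linarith)
    have h2 : U < M + 1 := Nat.lt_floor_add_one U
    have h3 : V ≤ U + 3 / 2 * (U / T) := by
      rw [hV]
      calc U * Real.exp (2 * Real.pi * (1 / (8 * T))) ≤ U * (1 + 3 / (2 * T)) := by gcongr
        _ = _ := by
          field_simp
    linarith
  have hsub : W ⊆ Ioc M (M + N) := by
    intro p hp
    rw [mem_Ioc]
    have h1 := hlt p hp
    have h2 := hle p hp
    have h3 : M < p := (Nat.floor_lt hU0.le).2 h1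
    have h4 : p ≤ ⌊V⌋₊ := Nat.le_floor h2
    omega
  set R := ⌊Real.sqrt (U / T)⌋₊ with hR
  have hR1 : (R : ℝ) ≤ Real.sqrt (U / T) := Nat.floor_le (Real.sqrt_nonneg _)
  have hR2 : Real.sqrt (U / T) < R + 1 := Nat.lt_floor_add_one _
  have hss : Real.sqrt (U / T) ^ 2 = U / T := Real.sq_sqrt (by linarith)
  have hR3 : (R : ℝ) ^ 2 ≤ U / T := by
    rw [← hss]
    exact pow_le_pow_left₀ (Nat.cast_nonneg _) hR1 2
  have hQR : Q ≤ R := by
    refine Nat.le_floor (Real.le_sqrt_of_sq_le ?_)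
    rw [le_div_iff₀ hT0]
    exact hUP
  have hcop : ∀ n ∈ W, ∀ m ∈ Icc 1 R, n.Coprime m := by
    intro p hp m hm
    rw [mem_Icc] at hm
    refine (Nat.Prime.coprime_iff_not_dvd (hW p hp).1).2 fun hd => ?_
    have h1 := Nat.le_of_dvd hm.1 hd
    have h2 : (p : ℝ) ≤ R := by exact_mod_cast h1.trans hm.2
    have h3 := hlt p hp
    have h4 : (R : ℝ) ≤ (R : ℝ) ^ 2 := by
      have : (1 : ℝ) ≤ R := by exact_mod_cast (hm.1.trans hm.2)
      nlinarith
    have h5 : U / T ≤ U := div_le_self hU0.le hT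
    linarith
  have hbd := bd M N Q R hQR hsub b hcop
  set S := ∑ q ∈ range Q, PP W b (q + 1) with hS
  have hS0 : 0 ≤ S := sum_nonneg fun q _ => PP_nonneg W b (q + 1)
  have hlog : 1 / 4 * Real.log U ≤ Real.log (((R / Q : ℕ) : ℝ) + 1) := by
    have hQ0 : (0 : ℝ) < Q := by linarith
    have h1 : Real.sqrt (U / T) ≤ Q * (((R / Q : ℕ) : ℝ) + 1) := by
      have h2 : R < Q * (R / Q + 1) := Nat.lt_mul_div_succ R (by omega)
      have h3 : (R : ℝ) + 1 ≤ Q * (((R / Q : ℕ) : ℝ) + 1) := by exact_mod_cast h2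
      linarith
    have h2 : U / P ≤ (((R / Q : ℕ) : ℝ) + 1) ^ 2 := by
      have h3 : U / T ≤ (Q * (((R / Q : ℕ) : ℝ) + 1)) ^ 2 := by
        rw [← hss]
        exact pow_le_pow_left₀ (Real.sqrt_nonneg _) h1 2
      rw [mul_pow] at h3
      rw [div_le_iff₀ (by positivity)]
      rw [div_le_iff₀ hT0] at h3
      calc U ≤ (Q : ℝ) ^ 2 * (((R / Q : ℕ) : ℝ) + 1) ^ 2 * T := h3
        _ = _ := by rw [hP]; ring
    have h3 : U ≤ ((((R / Q : ℕ) : ℝ) + 1) ^ 2) ^ 2 :=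
      hUP2.trans (pow_le_pow_left₀ (by positivity) h2 2)
    have h4 := Real.log_le_log hU0 h3
    rw [Real.log_pow, Real.log_pow] at h4
    push_cast at h4
    linarith
  have hlU : 0 < Real.log U := Real.log_pos hU1'
  have hsum0 : 0 ≤ ∑ n ∈ W, ‖b n‖ ^ 2 := sum_nonneg fun _ _ => by positivity
  have h1 : 1 / 8 * Real.log U * S ≤ 21 * (U / T) * ∑ n ∈ W, ‖b n‖ ^ 2 := by
    calc 1 / 8 * Real.log U * S ≤ Real.log (((R / Q : ℕ) : ℝ) + 1) / 2 * S :=
          mul_le_mul_of_nonneg_right (by linarith) hS0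
      _ ≤ 6 * (N + (R : ℝ) ^ 2) * ∑ n ∈ W, ‖b n‖ ^ 2 := hbd
      _ ≤ 21 * (U / T) * ∑ n ∈ W, ‖b n‖ ^ 2 := by
          refine mul_le_mul_of_nonneg_right ?_ hsum0
          linarith
  have h2 : S ≤ ∑ n ∈ W, 168 * (U / (T * Real.log U)) * ‖b n‖ ^ 2 := by
    rw [← mul_sum]
    have h3 : 168 * (U / (T * Real.log U)) * ∑ n ∈ W, ‖b n‖ ^ 2 =
        (21 * (U / T) * ∑ n ∈ W, ‖b n‖ ^ 2) / (1 / 8 * Real.log U) := by
      field_simp
      ring
    rw [h3, le_div_iff₀ (by positivity)]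
    linarith
  refine h2.trans (sum_le_sum fun p hp => ?_)
  refine mul_le_mul_of_nonneg_right ?_ (by positivity)
  have hp4 : 4 ≤ p := by
    have h3 := (hW p hp).2.1
    have h4 : (4 : ℝ) ≤ p := by nlinarith
    exact_mod_cast h4
  have hp4' : (4 : ℝ) ≤ p := by exact_mod_cast hp4
  have h3 := log_third hp4 (hle3 p hp)
  have h4 : 0 < Real.log p := Real.log_pos (by linarith)
  have h5 := (hlt p hp).le
  rw [mul_div_assoc', mul_div_assoc', div_le_div_iff₀ (by positivity) (by positivity)]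
  calc 168 * U * (T * Real.log p) ≤ 168 * p * (T * (5 * Real.log U)) := by gcongr
    _ = _ := by ring

/-- The sum over the primes against the character. -/
noncomputable def ps (F : Finset ℕ) (b : ℕ → ℂ) {q : ℕ} (χ : DirichletCharacter ℂ q) (t : ℝ) : ℂ :=
  ∑ p ∈ F, b p * χ (p : ZMod q) * Complex.exp (((-(t * Real.log p) : ℝ) : ℂ) * Complex.I)

lemma wf_eq (F : Finset ℕ) (c : ℕ → ℂ) (h u : ℝ) :
    wf F c xp h u = ∑ p ∈ F.filter (fun p => u ∈ Set.Ico (xp p - h) (xp p)), c p := by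
  unfold wf
  rw [sum_filter]
  refine sum_congr rfl fun p _ => ?_
  by_cases h1 : u ∈ Set.Ico (xp p - h) (xp p)
  · rw [if_pos h1, Set.indicator_of_mem h1]
  · rw [if_neg h1, Set.indicator_of_notMem h1]

open Classical in
/-- **The hybrid large sieve for primes.** -/
theorem hls {Q : ℕ} (hQ : 1 ≤ Q) {T : ℝ} (hT : 1 ≤ T) (F : Finset ℕ)
    (hF : ∀ p ∈ F, p.Prime ∧ 4 * ((Q : ℝ) ^ 2 * T) ^ 2 ≤ p) (b : ℕ → ℂ) :
    ∑ q ∈ range Q, ∑ χ ∈ (univ : Finset (DirichletCharacter ℂ (q + 1))).filter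
      (fun χ => χ.IsPrimitive), ∫⁻ t in Set.Icc (-T) T, ‖ps F b χ t‖ₑ ^ 2 ≤
      ENNReal.ofReal (26880 * ∑ p ∈ F, (p : ℝ) / Real.log p * ‖b p‖ ^ 2) := by
  have hT0 : 0 < T := by linarith
  have hpi0 := Real.pi_pos
  set h : ℝ := 1 / (8 * T) with hh
  have hh0 : 0 < h := by positivity
  have hTh : 1 / (8 * h) = T := by
    rw [hh]
    field_simp
  set c : (q : ℕ) → DirichletCharacter ℂ (q + 1) → ℕ → ℂ :=
    fun q χ p => b p * χ ((p : ℕ) : ZMod (q + 1)) with hc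
  have hes : ∀ (q : ℕ) (χ : DirichletCharacter ℂ (q + 1)) (t : ℝ),
      ps F b χ t = es F (c q χ) xp t := by
    intro q χ t
    unfold ps es xp
    refine sum_congr rfl fun p _ => ?_
    congr 3
    push_cast
    field_simp
  set A := ∑ q ∈ range Q, ∑ χ ∈ (univ : Finset (DirichletCharacter ℂ (q + 1))).filter
      (fun χ => χ.IsPrimitive), ∫⁻ t in Set.Icc (-T) T, ‖ps F b χ t‖ₑ ^ 2 with hA
  have h1 : ENNReal.ofReal ((h / 2) ^ 2) * A ≤
      ∑ q ∈ range Q, ∑ χ ∈ (univ : Finset (DirichletCharacter ℂ (q + 1))).filter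
      (fun χ => χ.IsPrimitive), ∫⁻ u, ‖wf F (c q χ) xp h u‖ₑ ^ 2 := by
    rw [hA, mul_sum]
    refine sum_le_sum fun q _ => ?_
    rw [mul_sum]
    refine sum_le_sum fun χ _ => ?_
    have h2 := gallagher F (c q χ) xp hh0
    rw [hTh] at h2
    simp_rw [hes]
    exact h2
  have hmeas : ∀ (q : ℕ) (χ : DirichletCharacter ℂ (q + 1)),
      Measurable fun u => ‖wf F (c q χ) xp h u‖ₑ ^ 2 := by
    intro q χ
    have h3 : Measurable (wf F (c q χ) xp h) := by
      unfold wf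
      exact Finset.measurable_fun_sum F fun n _ => measurable_const.indicator measurableSet_Ico
    exact h3.enorm.pow_const 2
  set g : ℕ → ℝ := fun p => 840 * ((p : ℝ) / (T * Real.log p)) * ‖b p‖ ^ 2 with hg
  have hg0 : ∀ p, 0 ≤ g p := fun p => by
    have := Real.log_natCast_nonneg p
    rw [hg]
    positivity
  have h2 : ∑ q ∈ range Q, ∑ χ ∈ (univ : Finset (DirichletCharacter ℂ (q + 1))).filter
      (fun χ => χ.IsPrimitive), ∫⁻ u, ‖wf F (c q χ) xp h u‖ₑ ^ 2 =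
      ∫⁻ u, ∑ q ∈ range Q, ∑ χ ∈ (univ : Finset (DirichletCharacter ℂ (q + 1))).filter
      (fun χ => χ.IsPrimitive), ‖wf F (c q χ) xp h u‖ₑ ^ 2 := by
    rw [lintegral_finsetSum _ fun q _ => Finset.measurable_fun_sum _ fun χ _ => hmeas q χ]
    refine sum_congr rfl fun q _ => ?_
    rw [lintegral_finsetSum _ fun χ _ => hmeas q χ]
  have h3 : ∀ u : ℝ, ∑ q ∈ range Q, ∑ χ ∈ (univ : Finset (DirichletCharacter ℂ (q + 1))).filter
      (fun χ => χ.IsPrimitive), ‖wf F (c q χ) xp h u‖ₑ ^ 2 ≤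
      ∑ p ∈ F, (Set.Ico (xp p - h) (xp p)).indicator (fun _ => ENNReal.ofReal (g p)) u := by
    intro u
    set W := F.filter (fun p => u ∈ Set.Ico (xp p - h) (xp p)) with hW
    have h4 := win hQ hT (W := W) b u (fun p hp => by
      rw [hW, mem_filter] at hp
      exact ⟨(hF p hp.1).1, (hF p hp.1).2, hp.2⟩)
    have h5 : ∑ q ∈ range Q, ∑ χ ∈ (univ : Finset (DirichletCharacter ℂ (q + 1))).filter
      (fun χ => χ.IsPrimitive), ‖wf F (c q χ) xp h u‖ₑ ^ 2 =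
        ENNReal.ofReal (∑ q ∈ range Q, PP W b (q + 1)) := by
      rw [ENNReal.ofReal_sum_of_nonneg fun q _ => PP_nonneg W b (q + 1)]
      refine sum_congr rfl fun q _ => ?_
      unfold PP
      rw [ENNReal.ofReal_sum_of_nonneg fun χ _ => by positivity]
      refine sum_congr rfl fun χ _ => ?_
      rw [wf_eq, ← ofReal_norm, ENNReal.ofReal_pow (norm_nonneg _)]
    rw [h5]
    refine (ENNReal.ofReal_le_ofReal h4).trans (le_of_eq ?_)
    rw [ENNReal.ofReal_sum_of_nonneg fun p _ => hg0 p, hW, sum_filter]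
    refine sum_congr rfl fun p _ => ?_
    by_cases h1 : u ∈ Set.Ico (xp p - h) (xp p)
    · rw [if_pos h1, Set.indicator_of_mem h1]
    · rw [if_neg h1, Set.indicator_of_notMem h1]
  have h4 : ∫⁻ u, ∑ p ∈ F, (Set.Ico (xp p - h) (xp p)).indicator
      (fun _ => ENNReal.ofReal (g p)) u = ENNReal.ofReal (h * ∑ p ∈ F, g p) := by
    rw [lintegral_finsetSum _ fun p _ => measurable_const.indicator measurableSet_Ico]
    rw [mul_sum, ENNReal.ofReal_sum_of_nonneg fun p _ => mul_nonneg hh0.le (hg0 p)]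
    refine sum_congr rfl fun p _ => ?_
    rw [lintegral_indicator_const measurableSet_Ico, Real.volume_Ico, ← ENNReal.ofReal_mul (hg0 p)]
    congr 1
    ring
  have h5 : ENNReal.ofReal ((h / 2) ^ 2) * A ≤ ENNReal.ofReal (h * ∑ p ∈ F, g p) := by
    refine h1.trans ?_
    rw [h2, ← h4]
    exact lintegral_mono h3
  have h6 : ENNReal.ofReal ((2 / h) ^ 2) * (ENNReal.ofReal ((h / 2) ^ 2) * A) = A := by
    rw [← mul_assoc, ← ENNReal.ofReal_mul (by positivity)]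
    have : (2 / h) ^ 2 * (h / 2) ^ 2 = 1 := by
      field_simp
    rw [this, ENNReal.ofReal_one, one_mul]
  rw [← h6]
  refine (mul_le_mul_right h5 _).trans ?_
  rw [← ENNReal.ofReal_mul (by positivity)]
  refine ENNReal.ofReal_le_ofReal (le_of_eq ?_)
  rw [hg]
  simp only
  rw [mul_sum, mul_sum, mul_sum]
  refine sum_congr rfl fun p _ => ?_
  rw [hh]
  field_simp
  ring

end Run7.h522.BD
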