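import Pool.Agent.Helper112.MultLS
import Pool.Agent.H385R2.Gauss
import Pool.Agent.H692R2.USS.T1

/-!
# The large sieve for integers without small prime factors (Bombieri and Davenport)
-/

set_option autoImplicit false

namespace Run7.h522.BD

open Finset Pool.Agent.Helper112 Pool.Agent.Helper112.MLS

/-- The coefficients, extended by zero. -/
noncomputable def ex (B : Finset ℕ) (b : ℕ → ℂ) (n : ℕ) : ℂ := by
  classical exact if n ∈ B then b n else 0

lemma ex_mem {B : Finset ℕ} (b : ℕ → ℂ) {n : ℕ} (h : n ∈ B) : ex B b n = b n := by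
  unfold ex
  rw [if_pos h]

lemma ex_not {B : Finset ℕ} (b : ℕ → ℂ) {n : ℕ} (h : n ∉ B) : ex B b n = 0 := by
  unfold ex
  rw [if_neg h]

lemma sum_ex {B : Finset ℕ} (b : ℕ → ℂ) {A : Finset ℕ} (h : B ⊆ A) (g : ℕ → ℂ) :
    ∑ n ∈ A, ex B b n * g n = ∑ n ∈ B, b n * g n := by
  rw [← sum_subset h (fun n _ hn => by rw [ex_not b hn, zero_mul])]
  exact sum_congr rfl fun n hn => by rw [ex_mem b hn]

lemma sum_ex_sq {B : Finset ℕ} (b : ℕ → ℂ) {A : Finset ℕ} (h : B ⊆ A) :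
    ∑ n ∈ A, ‖ex B b n‖ ^ 2 = ∑ n ∈ B, ‖b n‖ ^ 2 := by
  rw [← sum_subset h (fun n _ hn => by rw [ex_not b hn]; simp)]
  exact sum_congr rfl fun n hn => by rw [ex_mem b hn]

lemma sum_shift (M N : ℕ) {E : Type} [AddCommMonoid E] (g : ℕ → E) :
    ∑ j ∈ Icc 1 N, g (M + j) = ∑ n ∈ Ioc M (M + N), g n := by
  have h : Ioc M (M + N) = (Icc 1 N).map (addLeftEmbedding M) := by
    rw [map_add_left_Icc]
    ext n
    simp only [mem_Ioc, mem_Icc]
    omega
  rw [h, sum_map]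
  rfl

/-- The additive large sieve on an interval. -/
lemma add_ls (M N F : ℕ) {B : Finset ℕ} (hB : B ⊆ Ioc M (M + N)) (b : ℕ → ℂ) :
    ∑ f ∈ Icc 1 F, ∑ a ∈ (range f).filter (fun a => a.Coprime f),
      ‖∑ n ∈ Icc 1 (M + N), ex B b n * ee (n * a / f)‖ ^ 2
      ≤ 6 * (N + (F : ℝ) ^ 2) * ∑ n ∈ B, ‖b n‖ ^ 2 := by
  have h := additive_large_sieve N F fun j => ex B b (M + j)
  have h1 : ∑ j ∈ Icc 1 N, ‖ex B b (M + j)‖ ^ 2 = ∑ n ∈ B, ‖b n‖ ^ 2 := by
    rw [sum_shift M N (fun n => ‖ex B b n‖ ^ 2), sum_ex_sq b hB]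
  rw [h1] at h
  refine le_trans (le_of_eq ?_) h
  refine sum_congr rfl fun f _ => sum_congr rfl fun a _ => ?_
  have hB2 : B ⊆ Icc 1 (M + N) := fun n hn => by
    have := mem_Ioc.1 (hB hn)
    rw [mem_Icc]
    omega
  have h2 : ∑ j ∈ Icc 1 N, ex B b (M + j) * ee (j * a / f) =
      ee (-(M * a / f : ℝ)) * ∑ n ∈ B, b n * ee (n * a / f) := by
    have h3 := sum_shift M N (fun n => ex B b n * (ee (-(M * a / f : ℝ)) * ee (n * a / f)))
    have h4 : ∀ j : ℕ, ee (-(M * a / f : ℝ)) * ee (((M + j : ℕ) : ℝ) * a / f) =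
        ee (j * a / f) := by
      intro j
      rw [← ls_ee_add]
      congr 1
      push_cast
      ring
    simp_rw [h4] at h3
    rw [h3, sum_ex b hB, mul_sum]
    exact sum_congr rfl fun n _ => by ring
  rw [h2, sum_ex b hB2, norm_mul, ls_norm_ee, one_mul]

section modulus

variable {m : ℕ} [NeZero m]

/-- The Gauss sums of all characters. -/
lemma sum_char_all (N : ℕ) (α : ℕ → ℂ) (hα : ∀ n, α n ≠ 0 → n.Coprime m)
    (ξ : DirichletCharacter ℂ m) :
    ∑ a : ZMod m, ξ⁻¹ a * T m N α a =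
      (∑ n ∈ Icc 1 N, α n * ξ (n : ZMod m)) * gaussSum ξ⁻¹ (ZMod.stdAddChar : AddChar (ZMod m) ℂ) := by
  unfold T
  simp_rw [mul_sum]
  rw [sum_comm, sum_mul]
  refine sum_congr rfl fun n _ => ?_
  by_cases h0 : α n = 0
  · simp [h0]
  · have hu : IsUnit (n : ZMod m) := (ZMod.isUnit_iff_coprime n m).2 (hα n h0)
    obtain ⟨u, hu⟩ := hu
    have h := gaussSum_mulShift ξ⁻¹ (ZMod.stdAddChar : AddChar (ZMod m) ℂ) u
    have h1 : ξ (n : ZMod m) * ξ⁻¹ (n : ZMod m) = 1 := by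
      rw [← hu, ← MulChar.mul_apply, mul_inv_cancel, MulChar.one_apply_coe]
    rw [← h, hu]
    calc ∑ a : ZMod m, ξ⁻¹ a * (α n * ZMod.stdAddChar (a * (n : ZMod m)))
        = α n * gaussSum ξ⁻¹ (AddChar.mulShift ZMod.stdAddChar (n : ZMod m)) := by
          rw [gaussSum, mul_sum]
          refine sum_congr rfl fun a _ => ?_
          rw [AddChar.mulShift_apply, mul_comm (n : ZMod m) a]
          ring
      _ = α n * (ξ (n : ZMod m) * ξ⁻¹ (n : ZMod m)) *
            gaussSum ξ⁻¹ (AddChar.mulShift ZMod.stdAddChar (n : ZMod m)) := by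
          rw [h1, mul_one]
      _ = _ := by ring

/-- The weighted square. -/
noncomputable def GG (N : ℕ) (α : ℕ → ℂ) (m : ℕ) [NeZero m] (ξ : DirichletCharacter ℂ m) : ℝ :=
  ‖gaussSum ξ⁻¹ (ZMod.stdAddChar : AddChar (ZMod m) ℂ)‖ ^ 2 *
    ‖∑ n ∈ Icc 1 N, α n * ξ (n : ZMod m)‖ ^ 2

lemma GG_nonneg (N : ℕ) (α : ℕ → ℂ) (ξ : DirichletCharacter ℂ m) : 0 ≤ GG N α m ξ := by
  unfold GG
  positivity

lemma sum_GG (N : ℕ) (α : ℕ → ℂ) (hα : ∀ n, α n ≠ 0 → n.Coprime m) :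
    ∑ ξ : DirichletCharacter ℂ m, GG N α m ξ =
      Nat.totient m * ∑ a ∈ (range m).filter (fun a => a.Coprime m),
        ‖∑ n ∈ Icc 1 N, α n * ee (n * a / m)‖ ^ 2 := by
  rw [← sum_units, ← sum_all]
  refine sum_congr rfl fun ξ _ => ?_
  rw [sum_char_all N α hα ξ, norm_mul, mul_pow]
  unfold GG
  ring

end modulus

open Classical in
/-- The primitive characters, raised. -/
lemma prim_le (N : ℕ) (α : ℕ → ℂ) {q k : ℕ} [NeZero q] [NeZero (q * k)] (hk : Squarefree k)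
    (hqk : Nat.Coprime q k) (hα : ∀ n, α n ≠ 0 → n.Coprime k) :
    ∑ χ ∈ (univ : Finset (DirichletCharacter ℂ q)).filter (fun χ => χ.IsPrimitive),
      (q : ℝ) * ‖∑ n ∈ Icc 1 N, α n * χ (n : ZMod q)‖ ^ 2 ≤
    ∑ ξ ∈ (univ : Finset (DirichletCharacter ℂ (q * k))).filter (fun ξ => ξ.conductor = q),
      GG N α (q * k) ξ := by
  set cl : DirichletCharacter ℂ q → DirichletCharacter ℂ (q * k) :=
    fun χ => DirichletCharacter.changeLevel (Dvd.intro k rfl) χ with hcl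
  have hinj : Function.Injective cl := DirichletCharacter.changeLevel_injective (Dvd.intro k rfl)
  have h1 : ∀ χ ∈ (univ : Finset (DirichletCharacter ℂ q)).filter (fun χ => χ.IsPrimitive),
      (q : ℝ) * ‖∑ n ∈ Icc 1 N, α n * χ (n : ZMod q)‖ ^ 2 = GG N α (q * k) (cl χ) := by
    intro χ hχ
    rw [mem_filter] at hχ
    have hinv : (χ⁻¹).IsPrimitive := by
      rw [DirichletCharacter.isPrimitive_def, DirichletCharacter.conductor_inv]
      exact hχ.2
    have h2 : ‖gaussSum (cl χ)⁻¹ (ZMod.stdAddChar : AddChar (ZMod (q * k)) ℂ)‖ ^ 2 = q := by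
      have h3 := H385.tau_induced q k hk hqk χ⁻¹ hinv
      rw [H385.GaussAux.tau_eq_gaussSum] at h3
      have h4 : (cl χ)⁻¹ = DirichletCharacter.changeLevel (Dvd.intro k rfl) χ⁻¹ := by
        rw [hcl]
        exact (map_inv _ _).symm
      rw [h4]
      exact h3
    unfold GG
    rw [h2]
    congr 3
    refine sum_congr rfl fun n _ => ?_
    by_cases h0 : α n = 0
    · simp [h0]
    · have h5 := H385.GaussAux.changeLevel_apply q k hk.ne_zero χ n
      rw [if_pos (hα n h0), one_mul] at h5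
      rw [hcl]
      simp only
      rw [h5]
  rw [sum_congr rfl h1, ← sum_image (f := fun ξ => GG N α (q * k) ξ) (fun x _ y _ h => hinj h)]
  refine sum_le_sum_of_subset_of_nonneg ?_ fun ξ _ _ => GG_nonneg N α ξ
  intro ξ hξ
  rw [mem_image] at hξ
  obtain ⟨χ, hχ, rfl⟩ := hξ
  rw [mem_filter] at hχ ⊢
  refine ⟨mem_univ _, ?_⟩
  rw [hcl]
  simp only
  rw [DirichletCharacter.conductor_changeLevel]
  exact hχ.2

end Run7.h522.BD
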