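import Pool.Agent.Run7.h522.BD.Pl

/-!
# The hybrid large sieve for the twists of an Euler product, up to the edge
-/

set_option autoImplicit false

namespace Run7.h522.BD

open NumberField IsDedekindDomain Filter Topology MeasureTheory Pool.Agent.H921R2.TatePole
  Pool.Agent.W350.Edge Pool.Agent.W350.EdgeV Pool.Agent.W350.EdgeNF Pool.Agent.TH958.BV
  Run7.h522.BM Run7.h522.QA

/-- The primitive characters modulo `q + 1`. -/
noncomputable def prim (q : ℕ) : Finset (DirichletCharacter ℂ (q + 1)) := by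
  classical exact Finset.univ.filter fun χ => χ.IsPrimitive

lemma card_prim (Q : ℕ) : ∑ q ∈ Finset.range Q, ((prim q).card : ℝ) ≤ (Q : ℝ) ^ 2 := by
  have h1 : ∀ q ∈ Finset.range Q, ((prim q).card : ℝ) ≤ Q := by
    intro q hq
    rw [Finset.mem_range] at hq
    have h2 : ((prim q).card : ℝ) ≤ Fintype.card (DirichletCharacter ℂ (q + 1)) := by
      exact_mod_cast Finset.card_le_univ _
    have h3 := card_char (q := q + 1)
    have h4 : (Nat.totient (q + 1) : ℝ) ≤ (q + 1 : ℕ) := by exact_mod_cast Nat.totient_le _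
    have h5 : ((q + 1 : ℕ) : ℝ) ≤ Q := by exact_mod_cast hq
    linarith
  refine (Finset.sum_le_sum h1).trans (le_of_eq ?_)
  rw [Finset.sum_const, Finset.card_range, nsmul_eq_mul, sq]

/-- The primes of `[Z, X)`. -/
noncomputable def FP (Z X : ℕ) : Finset ℕ := (Finset.Ico Z X).filter Nat.Prime

lemma mem_FP {Z X p : ℕ} (h : p ∈ FP Z X) : p.Prime ∧ Z ≤ p := by
  unfold FP at h
  rw [Finset.mem_filter, Finset.mem_Ico] at h
  exact ⟨h.2, h.1.1⟩

lemma enorm_add_sq (x z : ℂ) : ‖x + z‖ₑ ^ 2 ≤ 2 * ‖x‖ₑ ^ 2 + 2 * ‖z‖ₑ ^ 2 := by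
  have h := add_sq_le x z
  have h1 : ∀ w : ℂ, ‖w‖ₑ ^ 2 = ENNReal.ofReal (‖w‖ ^ 2) := fun w => by
    rw [← ofReal_norm, ENNReal.ofReal_pow (norm_nonneg _)]
  rw [h1, h1, h1]
  have h2 : (2 : ENNReal) = ENNReal.ofReal 2 := by simp
  rw [h2, ← ENNReal.ofReal_mul (by norm_num), ← ENNReal.ofReal_mul (by norm_num),
    ← ENNReal.ofReal_add (by positivity) (by positivity)]
  exact ENNReal.ofReal_le_ofReal h

variable {K : Type} [Field K] [NumberField K] {i N : ℕ} {S : Set (HeightOneSpectrum (𝓞 K))}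
  {α : HeightOneSpectrum (𝓞 K) → Fin N → ℂ}

/-- The places of `[Z, X)`. -/
noncomputable def tl (S : Set (HeightOneSpectrum (𝓞 K))) (i : ℕ)
    (α : HeightOneSpectrum (𝓞 K) → Fin N → ℂ) (Z X : ℕ) {q : ℕ}
    (χ : DirichletCharacter ℂ q) (y t : ℝ) : ℂ :=
  ∑ v ∈ FZ K Z X, lv (Sx S q) (ax α χ) v (se i t + y)

lemma tl_split {q : ℕ} (hα : Wt S i α) (χ : DirichletCharacter ℂ q) {Z : ℕ} (hZ : 1 ≤ Z) (X : ℕ)
    {y : ℝ} (hy : 0 ≤ y) (t₀ s : ℝ) :
    ‖tl S i α Z X χ y (t₀ + s) - ps (FP Z X) (bp S i α y t₀) χ s‖ ^ 2 ≤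
      36 * (N * Module.finrank ℚ K) ^ 2 / Z := by
  have hZ0 : (1 : ℝ) ≤ Z := by exact_mod_cast hZ
  have h1 : tl S i α Z X χ y (t₀ + s) - ps (FP Z X) (bp S i α y t₀) χ s =
      ∑ v ∈ FZ K Z X, sm (Sx S q) i (ax α χ) y (t₀ + s) v := by
    unfold tl
    rw [sum_lv (Wt_x hα χ)]
    have h2 : ∑ p ∈ (Finset.Ico Z X).filter Nat.Prime, bp (Sx S q) i (ax α χ) y (t₀ + s) p =
        ps (FP Z X) (bp S i α y t₀) χ s := by
      unfold ps FP
      refine Finset.sum_congr rfl fun p _ => ?_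
      rw [bp_x]
      unfold bp
      have h3 : Complex.exp (-((y : ℂ) + ((t₀ + s : ℝ) : ℂ) * Complex.I) * Real.log p) =
          Complex.exp (-((y : ℂ) + t₀ * Complex.I) * Real.log p) *
            Complex.exp (((-(s * Real.log p) : ℝ) : ℂ) * Complex.I) := by
        rw [← Complex.exp_add]
        congr 1
        push_cast
        ring
      rw [h3]
      ring
    rw [h2]
    ring
  rw [h1]
  calc _ ≤ (6 * (N * Module.finrank ℚ K) / Real.sqrt Z) ^ 2 :=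
        pow_le_pow_left₀ (norm_nonneg _) (norm_sum_sm (Wt_x hα χ) hy (t₀ + s) hZ X) 2
    _ = _ := by
        rw [div_pow, Real.sq_sqrt (by linarith)]
        ring

lemma norm_bp_le' (hα : Wt S i α) (y t : ℝ) {p : ℕ} (hp : 1 ≤ p) :
    ‖bp S i α y t p‖ ≤ N * Module.finrank ℚ K / p * (p : ℝ) ^ (-y) := by
  have hp0 : (1 : ℝ) ≤ p := by exact_mod_cast hp
  unfold bp
  rw [norm_mul, norm_div, Complex.norm_natCast]
  have h1 : ‖Complex.exp (-((y : ℂ) + t * Complex.I) * Real.log p)‖ = (p : ℝ) ^ (-y) := by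
    rw [Complex.norm_exp, Complex.re_mul_ofReal, Real.rpow_def_of_pos (by linarith)]
    congr 1
    have h2 : (-((y : ℂ) + t * Complex.I)).re = -y := by simp
    rw [h2]
    ring
  rw [h1]
  gcongr
  exact norm_cp hα p

/-- The sum of the squares of the coefficients. -/
lemma coef (hα : Wt S i α) {Z : ℕ} (hZ : 2 ≤ Z) (X : ℕ) {y : ℝ} (hy : 0 ≤ y) (t : ℝ) :
    ∑ p ∈ FP Z X, (p : ℝ) / Real.log p * ‖bp S i α y t p‖ ^ 2 ≤
      17 * (N * Module.finrank ℚ K) ^ 2 / Real.log Z := by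
  set D : ℝ := N * Module.finrank ℚ K with hD
  have h1 : ∀ p ∈ FP Z X, (p : ℝ) / Real.log p * ‖bp S i α y t p‖ ^ 2 ≤
      D ^ 2 * (1 / ((p : ℝ) * Real.log p)) := by
    intro p hp
    have hp1 := (mem_FP hp).1
    have hp0 : (0 : ℝ) < p := by exact_mod_cast hp1.pos
    have hl : 0 < Real.log p := Real.log_pos (by exact_mod_cast hp1.one_lt)
    calc (p : ℝ) / Real.log p * ‖bp S i α y t p‖ ^ 2 ≤ (p : ℝ) / Real.log p * (D / p) ^ 2 := by
          refine mul_le_mul_of_nonneg_left ?_ (by positivity)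
          exact pow_le_pow_left₀ (norm_nonneg _) (norm_bp_le hα hy t hp1.one_le) 2
      _ = _ := by
          field_simp
  refine (Finset.sum_le_sum h1).trans ?_
  rw [← Finset.mul_sum]
  calc D ^ 2 * ∑ p ∈ FP Z X, 1 / ((p : ℝ) * Real.log p) ≤ D ^ 2 * (17 / Real.log Z) := by
        refine mul_le_mul_of_nonneg_left ?_ (sq_nonneg _)
        exact sum_pl hZ _ fun p hp => mem_FP hp
    _ = _ := by ring

lemma logZ_le {Z : ℕ} (hZ : 2 ≤ Z) : Real.log Z ≤ 2 * Real.sqrt Z := by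
  have hZ0 : (0 : ℝ) < Z := by
    have : 0 < Z := by omega
    exact_mod_cast this
  have h1 := Real.log_le_sub_one_of_pos (Real.sqrt_pos.2 hZ0)
  rw [Real.log_sqrt hZ0.le] at h1
  linarith

/-- `Q² T / Z` is small. -/
lemma small {Q : ℕ} (hQ : 1 ≤ Q) {T : ℝ} (hT : 1 ≤ T) {Z : ℕ} (hZ : (4 * (Q : ℝ) ^ 2 * T) ^ 2 ≤ Z) :
    2 ≤ Z ∧ (Q : ℝ) ^ 2 * T / Z ≤ 1 / (2 * Real.log Z) ∧ (Q : ℝ) ^ 2 * T / Z ≤ 1 / 16 := by
  have hQ1 : (1 : ℝ) ≤ Q := by exact_mod_cast hQ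
  have hQ2 : (1 : ℝ) ≤ (Q : ℝ) ^ 2 := one_le_pow₀ hQ1
  set P : ℝ := (Q : ℝ) ^ 2 * T with hP
  have hP1 : 1 ≤ P := by nlinarith
  have h1 : (4 * (Q : ℝ) ^ 2 * T) ^ 2 = 16 * P ^ 2 := by rw [hP]; ring
  rw [h1] at hZ
  have hP2 : 1 ≤ P ^ 2 := one_le_pow₀ hP1
  have hZ2 : (2 : ℝ) ≤ Z := by linarith
  have hZ2' : 2 ≤ Z := by exact_mod_cast hZ2
  have hlZ : 0 < Real.log Z := Real.log_pos (by linarith)
  have hs := logZ_le hZ2'
  have h4P : 4 * P ≤ Real.sqrt Z := Real.le_sqrt_of_sq_le (by nlinarith)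
  have hss : Real.sqrt (Z : ℝ) * Real.sqrt Z = Z := Real.mul_self_sqrt (by linarith)
  refine ⟨hZ2', ?_, ?_⟩
  · rw [div_le_div_iff₀ (by linarith) (by linarith)]
    nlinarith
  · rw [div_le_div_iff₀ (by linarith) (by norm_num)]
    nlinarith

lemma meas_lv (v : HeightOneSpectrum (𝓞 K)) {f : ℝ → ℂ} (hf : Continuous f) :
    Measurable fun s => lv S α v (f s) := by
  unfold lv
  by_cases h : v ∈ S
  · simp only [if_pos h]
    exact measurable_const
  · simp only [if_neg h]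
    refine Finset.measurable_fun_sum _ fun j _ => (Complex.measurable_log.comp ?_).neg
    have hne : (Ideal.absNorm v.asIdeal : ℂ) ≠ 0 := by
      have : Ideal.absNorm v.asIdeal ≠ 0 := nm_ne_zero v
      exact_mod_cast this
    have h1 : Continuous fun s => (Ideal.absNorm v.asIdeal : ℂ) ^ (-f s) :=
      hf.neg.const_cpow (Or.inl hne)
    exact (continuous_const.sub (continuous_const.mul h1)).measurable

lemma meas_tl {q : ℕ} (χ : DirichletCharacter ℂ q) (Z X : ℕ) (y t₀ : ℝ) :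
    Measurable fun s => tl S i α Z X χ y (t₀ + s) := by
  unfold tl
  refine Finset.measurable_fun_sum _ fun v _ => meas_lv v ?_
  exact ((continuous_se i).comp (continuous_const.add continuous_id)).add continuous_const

/-- The finite form. -/
lemma fin_form (hα : Wt S i α) {Q : ℕ} (hQ : 1 ≤ Q) {T : ℝ} (hT : 1 ≤ T) {Z : ℕ}
    (hZ : (4 * (Q : ℝ) ^ 2 * T) ^ 2 ≤ Z) {y : ℝ} (hy : 0 ≤ y) (t₀ : ℝ) (X : ℕ) :
    ∑ q ∈ Finset.range Q, ∑ χ ∈ prim q,
      ∫⁻ s in Set.Icc (-T) T, ‖tl S i α Z X χ y (t₀ + s)‖ₑ ^ 2 ≤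
      ENNReal.ofReal (10 ^ 6 * (N * Module.finrank ℚ K) ^ 2 / Real.log Z) := by
  obtain ⟨hZ2, hsm, -⟩ := small hQ hT hZ
  have hT0 : 0 < T := by linarith
  have hlZ : 0 < Real.log Z := Real.log_pos (by exact_mod_cast (by omega : 1 < Z))
  have hQ1 : (1 : ℝ) ≤ Q := by exact_mod_cast hQ
  have hZ0 : (0 : ℝ) < Z := by
    have : 0 < Z := by omega
    exact_mod_cast this
  set D : ℝ := N * Module.finrank ℚ K with hD
  have hls := hls hQ hT (FP Z X) (fun p hp => by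
    refine ⟨(mem_FP hp).1, ?_⟩
    have h1 : (Z : ℝ) ≤ p := by exact_mod_cast (mem_FP hp).2
    have h2 : 4 * ((Q : ℝ) ^ 2 * T) ^ 2 ≤ (4 * (Q : ℝ) ^ 2 * T) ^ 2 := by
      nlinarith [sq_nonneg ((Q : ℝ) ^ 2 * T)]
    linarith) (bp S i α y t₀)
  have hco := coef hα hZ2 X hy t₀
  rw [← hD] at hco
  have h1 : ∀ (q : ℕ) (χ : DirichletCharacter ℂ (q + 1)),
      ∫⁻ s in Set.Icc (-T) T, ‖tl S i α Z X χ y (t₀ + s)‖ₑ ^ 2 ≤
        2 * (∫⁻ s in Set.Icc (-T) T, ‖ps (FP Z X) (bp S i α y t₀) χ s‖ₑ ^ 2) +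
          ENNReal.ofReal (144 * D ^ 2 * T / Z) := by
    intro q χ
    calc ∫⁻ s in Set.Icc (-T) T, ‖tl S i α Z X χ y (t₀ + s)‖ₑ ^ 2
        ≤ ∫⁻ s in Set.Icc (-T) T, (2 * ‖ps (FP Z X) (bp S i α y t₀) χ s‖ₑ ^ 2 +
          ENNReal.ofReal (72 * D ^ 2 / Z)) := by
          refine lintegral_mono fun s => ?_
          have h2 := enorm_add_sq (ps (FP Z X) (bp S i α y t₀) χ s)
            (tl S i α Z X χ y (t₀ + s) - ps (FP Z X) (bp S i α y t₀) χ s)
          rw [add_sub_cancel] at h2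
          refine h2.trans ?_
          gcongr
          have h3 := tl_split hα χ (by omega : 1 ≤ Z) X hy t₀ s
          rw [← hD] at h3
          rw [← ofReal_norm, ← ENNReal.ofReal_pow (norm_nonneg _)]
          have h4 : (2 : ENNReal) = ENNReal.ofReal 2 := by simp
          rw [h4, ← ENNReal.ofReal_mul (by norm_num)]
          refine ENNReal.ofReal_le_ofReal ?_
          have h5 : 72 * D ^ 2 / (Z : ℝ) = 2 * (36 * D ^ 2 / Z) := by ring
          rw [h5]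
          linarith
      _ = 2 * (∫⁻ s in Set.Icc (-T) T, ‖ps (FP Z X) (bp S i α y t₀) χ s‖ₑ ^ 2) +
          ENNReal.ofReal (144 * D ^ 2 * T / Z) := by
          rw [lintegral_add_right _ measurable_const, lintegral_const_mul' _ _ (by simp),
            lintegral_const, Measure.restrict_apply_univ, Real.volume_Icc,
            ← ENNReal.ofReal_mul (by positivity)]
          congr 2
          ring
  calc ∑ q ∈ Finset.range Q, ∑ χ ∈ prim q,
      ∫⁻ s in Set.Icc (-T) T, ‖tl S i α Z X χ y (t₀ + s)‖ₑ ^ 2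
      ≤ ∑ q ∈ Finset.range Q, ∑ χ ∈ prim q,
        (2 * (∫⁻ s in Set.Icc (-T) T, ‖ps (FP Z X) (bp S i α y t₀) χ s‖ₑ ^ 2) +
          ENNReal.ofReal (144 * D ^ 2 * T / Z)) :=
        Finset.sum_le_sum fun q _ => Finset.sum_le_sum fun χ _ => h1 q χ
    _ = 2 * (∑ q ∈ Finset.range Q, ∑ χ ∈ prim q,
        ∫⁻ s in Set.Icc (-T) T, ‖ps (FP Z X) (bp S i α y t₀) χ s‖ₑ ^ 2) +
          ∑ q ∈ Finset.range Q, ((prim q).card : ENNReal) * ENNReal.ofReal (144 * D ^ 2 * T / Z) := by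
        rw [Finset.mul_sum, ← Finset.sum_add_distrib]
        refine Finset.sum_congr rfl fun q _ => ?_
        rw [Finset.sum_add_distrib, Finset.mul_sum, Finset.sum_const, nsmul_eq_mul]
    _ ≤ 2 * ENNReal.ofReal (26880 * (17 * D ^ 2 / Real.log Z)) +
          ENNReal.ofReal ((Q : ℝ) ^ 2 * (144 * D ^ 2 * T / Z)) := by
        gcongr
        · refine hls.trans (ENNReal.ofReal_le_ofReal ?_)
          gcongr
        · rw [← Finset.sum_mul, ENNReal.ofReal_mul (by positivity)]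
          refine mul_le_mul_left ?_ _
          have h5 := ENNReal.ofReal_le_ofReal (card_prim Q)
          rw [ENNReal.ofReal_sum_of_nonneg fun q _ => Nat.cast_nonneg _] at h5
          simpa using h5
    _ = ENNReal.ofReal (2 * (26880 * (17 * D ^ 2 / Real.log Z)) +
          (Q : ℝ) ^ 2 * (144 * D ^ 2 * T / Z)) := by
        rw [ENNReal.ofReal_add (by positivity) (by positivity), ENNReal.ofReal_mul (by norm_num)]
        simp
    _ ≤ _ := by
        refine ENNReal.ofReal_le_ofReal ?_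
        have h6 : (Q : ℝ) ^ 2 * (144 * D ^ 2 * T / Z) = 144 * D ^ 2 * ((Q : ℝ) ^ 2 * T / Z) := by
          ring
        have h7 : 144 * D ^ 2 * ((Q : ℝ) ^ 2 * T / Z) ≤ 144 * D ^ 2 * (1 / (2 * Real.log Z)) := by
          gcongr
        have h8 : 144 * D ^ 2 * (1 / (2 * Real.log Z)) = 72 * (D ^ 2 / Real.log Z) := by
          field_simp
          ring
        have h9 : 10 ^ 6 * D ^ 2 / Real.log Z = 10 ^ 6 * (D ^ 2 / Real.log Z) := by ring
        have h10 : 2 * (26880 * (17 * D ^ 2 / Real.log Z)) = 913920 * (D ^ 2 / Real.log Z) := by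
          ring
        have h11 : 0 ≤ D ^ 2 / Real.log Z := by positivity
        rw [h6, h9, h10]
        linarith

/-- Fatou's lemma. -/
lemma fatou (hα : Wt S i α) {Q : ℕ} (hQ : 1 ≤ Q) {T : ℝ} (hT : 1 ≤ T) {Z : ℕ}
    (hZ : (4 * (Q : ℝ) ^ 2 * T) ^ 2 ≤ Z) {y : ℝ} (hy : 0 ≤ y) (t₀ : ℝ)
    (G : (q : ℕ) → DirichletCharacter ℂ (q + 1) → ℝ → ℂ)
    (hG : ∀ q χ, ∀ᵐ s : ℝ, Tendsto (fun X => tl S i α Z X χ y (t₀ + s)) atTop (𝓝 (G q χ s))) :
    ∑ q ∈ Finset.range Q, ∑ χ ∈ prim q, ∫⁻ s in Set.Icc (-T) T, ‖G q χ s‖ₑ ^ 2 ≤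
      ENNReal.ofReal (10 ^ 6 * (N * Module.finrank ℚ K) ^ 2 / Real.log Z) := by
  have hGm : ∀ q χ, AEMeasurable (G q χ) volume := fun q χ =>
    aemeasurable_of_tendsto_metrizable_ae atTop (fun X => (meas_tl χ Z X y t₀).aemeasurable) (hG q χ)
  have hGm2 : ∀ q χ, AEMeasurable (fun s => ‖G q χ s‖ₑ ^ 2) (volume.restrict (Set.Icc (-T) T)) :=
    fun q χ => ((hGm q χ).enorm.pow_const 2).restrict
  have h1 : ∑ q ∈ Finset.range Q, ∑ χ ∈ prim q, ∫⁻ s in Set.Icc (-T) T, ‖G q χ s‖ₑ ^ 2 =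
      ∫⁻ s in Set.Icc (-T) T, ∑ q ∈ Finset.range Q, ∑ χ ∈ prim q, ‖G q χ s‖ₑ ^ 2 := by
    rw [lintegral_finsetSum' _ fun q _ => Finset.aemeasurable_fun_sum _ fun χ _ => hGm2 q χ]
    refine Finset.sum_congr rfl fun q _ => ?_
    rw [lintegral_finsetSum' _ fun χ _ => hGm2 q χ]
  have h2 : ∀ X : ℕ, ∑ q ∈ Finset.range Q, ∑ χ ∈ prim q,
      ∫⁻ s in Set.Icc (-T) T, ‖tl S i α Z X χ y (t₀ + s)‖ₑ ^ 2 =
      ∫⁻ s in Set.Icc (-T) T, ∑ q ∈ Finset.range Q, ∑ χ ∈ prim q,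
        ‖tl S i α Z X χ y (t₀ + s)‖ₑ ^ 2 := by
    intro X
    have hm : ∀ (q : ℕ) (χ : DirichletCharacter ℂ (q + 1)),
        Measurable fun s => ‖tl S i α Z X χ y (t₀ + s)‖ₑ ^ 2 :=
      fun q χ => (meas_tl χ Z X y t₀).enorm.pow_const 2
    rw [lintegral_finsetSum _ fun q _ => Finset.measurable_fun_sum _ fun χ _ => hm q χ]
    refine Finset.sum_congr rfl fun q _ => ?_
    rw [lintegral_finsetSum _ fun χ _ => hm q χ]
  rw [h1]
  have h3 : ∀ᵐ s : ℝ, ∀ q ∈ Finset.range Q, ∀ χ ∈ prim q,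
      Tendsto (fun X => tl S i α Z X χ y (t₀ + s)) atTop (𝓝 (G q χ s)) := by
    rw [Filter.eventually_all_finset]
    intro q _
    rw [Filter.eventually_all_finset]
    intro χ _
    exact hG q χ
  have h4 : ∫⁻ s in Set.Icc (-T) T, ∑ q ∈ Finset.range Q, ∑ χ ∈ prim q, ‖G q χ s‖ₑ ^ 2 =
      ∫⁻ s in Set.Icc (-T) T, liminf (fun X => ∑ q ∈ Finset.range Q, ∑ χ ∈ prim q,
        ‖tl S i α Z X χ y (t₀ + s)‖ₑ ^ 2) atTop := by
    refine lintegral_congr_ae ?_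
    filter_upwards [ae_restrict_of_ae h3] with s hs
    refine (Tendsto.liminf_eq ?_).symm
    refine tendsto_finsetSum _ fun q hq => tendsto_finsetSum _ fun χ hχ => ?_
    exact ((ENNReal.continuous_pow 2).tendsto _).comp (hs q hq χ hχ).enorm
  rw [h4]
  refine (lintegral_liminf_le fun X => Finset.measurable_fun_sum _ fun q _ =>
    Finset.measurable_fun_sum _ fun χ _ => (meas_tl χ Z X y t₀).enorm.pow_const 2).trans ?_
  refine liminf_le_of_frequently_le' (Frequently.of_forall fun X => ?_)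
  rw [← h2]
  exact fin_form hα hQ hT hZ hy t₀ X

end Run7.h522.BD
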