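import Pool.Agent.Run7.h522.BD.HLS
import Pool.Agent.Run7.h522.QA.Tw

/-!
# Sums over primes; values at well-spaced points
-/

set_option autoImplicit false

namespace Run7.h522.BD

open Finset MeasureTheory Run7.h522.BM Run7.h522.QA

lemma card_block {j : ℕ} (B : Finset ℕ) (hB : ∀ p ∈ B, p.Prime ∧ Nat.log 2 p = j) :
    (j : ℝ) * B.card ≤ 4 * 2 ^ j := by
  have h1 : (2 ^ j) ^ B.card ≤ ∏ p ∈ B, p := by
    rw [← prod_const]
    refine prod_le_prod (fun _ _ => Nat.zero_le _) fun p hp => ?_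
    rw [← (hB p hp).2]
    exact Nat.pow_log_le_self 2 (hB p hp).1.ne_zero
  have h2 : ∏ p ∈ B, p ≤ primorial (2 ^ (j + 1)) := by
    unfold primorial
    refine prod_le_prod_of_subset_of_one_le' ?_ fun p hp _ => ?_
    · intro p hp
      rw [mem_filter, mem_range]
      refine ⟨?_, (hB p hp).1⟩
      have := Nat.lt_pow_succ_log_self (b := 2) (by norm_num) p
      rw [(hB p hp).2] at this
      exact this.trans (Nat.lt_succ_self _)
    · exact (mem_filter.1 hp).2.one_le
  have h3 := (h1.trans h2).trans (primorial_le_four_pow _)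
  have h4 : (4 : ℕ) ^ 2 ^ (j + 1) = 2 ^ (2 * 2 ^ (j + 1)) := by
    rw [pow_mul]
    norm_num
  rw [← pow_mul, h4] at h3
  have h5 : j * B.card ≤ 2 * 2 ^ (j + 1) := (Nat.pow_le_pow_iff_right (by norm_num)).1 h3
  have h6 : (j : ℝ) * B.card ≤ 2 * 2 ^ (j + 1) := by exact_mod_cast h5
  refine h6.trans (le_of_eq ?_)
  rw [pow_succ]
  ring

/-- The dyadic decomposition. -/
lemma sum_blocks (F : Finset ℕ) (hF : ∀ p ∈ F, p.Prime) {J : ℕ} (hJ : ∀ p ∈ F, J ≤ Nat.log 2 p)
    (f : ℕ → ℝ) (w : ℕ → ℝ) (hw : ∀ p ∈ F, f p ≤ w (Nat.log 2 p)) (hw0 : ∀ j, 0 ≤ w j) :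
    ∃ M, ∑ p ∈ F, f p ≤ ∑ j ∈ Ico J M, 4 * 2 ^ j / j * w j := by
  obtain ⟨M, hM⟩ : ∃ M, ∀ p ∈ F, Nat.log 2 p < M :=
    ⟨F.sup (Nat.log 2) + 1, fun p hp => Nat.lt_succ_of_le (le_sup (f := Nat.log 2) hp)⟩
  refine ⟨M, ?_⟩
  have hmaps : ∀ p ∈ F, Nat.log 2 p ∈ Ico J M := fun p hp => mem_Ico.2 ⟨hJ p hp, hM p hp⟩
  rw [← sum_fiberwise_of_maps_to hmaps]
  refine sum_le_sum fun j hj => ?_
  have h1 : ∑ p ∈ F.filter (fun p => Nat.log 2 p = j), f p ≤
      ∑ p ∈ F.filter (fun p => Nat.log 2 p = j), w j := by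
    refine sum_le_sum fun p hp => ?_
    rw [mem_filter] at hp
    rw [← hp.2]
    exact hw p hp.1
  refine h1.trans ?_
  rw [sum_const, nsmul_eq_mul]
  rcases (F.filter (fun p => Nat.log 2 p = j)).eq_empty_or_nonempty with h0 | ⟨p, hp⟩
  · rw [h0]
    have := hw0 j
    simp only [card_empty, Nat.cast_zero, zero_mul]
    positivity
  rw [mem_filter] at hp
  have hj1 : 1 ≤ j := by
    rw [← hp.2]
    exact Nat.log_pos (by norm_num) (hF p hp.1).two_le
  refine mul_le_mul_of_nonneg_right ?_ (hw0 j)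
  have hj0 : (0 : ℝ) < j := by exact_mod_cast hj1
  rw [le_div_iff₀ hj0, mul_comm]
  refine card_block _ fun p hp => ?_
  rw [mem_filter] at hp
  exact ⟨hF p hp.1, hp.2⟩

lemma log_ge {p : ℕ} (hp : p.Prime) : (Nat.log 2 p : ℝ) * Real.log 2 ≤ Real.log p := by
  rw [← Real.log_pow]
  refine Real.log_le_log (by positivity) ?_
  exact_mod_cast Nat.pow_log_le_self 2 hp.ne_zero

lemma log_le' {p : ℕ} (hp : p.Prime) : Real.log p ≤ 2 * Nat.log 2 p * Real.log 2 := by
  have := log_J hp.two_le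
  linarith

/-- `∑ 1 / (p log p)` over `p ≥ Z`. -/
lemma sum_pl {Z : ℕ} (hZ : 2 ≤ Z) (F : Finset ℕ) (hF : ∀ p ∈ F, p.Prime ∧ Z ≤ p) :
    ∑ p ∈ F, 1 / ((p : ℝ) * Real.log p) ≤ 17 / Real.log Z := by
  have hl2 := log2_ge
  have hl3 : Real.log 2 ≤ 0.7 := by
    have := Real.log_two_lt_d9
    linarith
  have hl0 : 0 < Real.log 2 := by linarith
  set J := Nat.log 2 Z with hJ
  have hJ1 : 1 ≤ J := Nat.log_pos (by norm_num) hZ
  have hJ0 : (0 : ℝ) < J := by exact_mod_cast hJ1
  obtain ⟨M, hM⟩ := sum_blocks F (fun p hp => (hF p hp).1) (J := J)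
    (fun p hp => Nat.log_mono_right (hF p hp).2) (fun p => 1 / ((p : ℝ) * Real.log p))
    (fun j => 1 / (2 ^ j * (j * Real.log 2))) (fun p hp => by
      have hp1 := (hF p hp).1
      have h1 : 1 ≤ Nat.log 2 p := Nat.log_pos (by norm_num) hp1.two_le
      have h2 : (0 : ℝ) < Nat.log 2 p := by exact_mod_cast h1
      refine one_div_le_one_div_of_le (by positivity) ?_
      refine mul_le_mul ?_ (log_ge hp1) (by positivity) (by positivity)
      exact_mod_cast Nat.pow_log_le_self 2 hp1.ne_zero) (fun j => by positivity)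
  refine hM.trans ?_
  have h1 : ∀ j ∈ Ico J M, 4 * 2 ^ j / (j : ℝ) * (1 / (2 ^ j * (j * Real.log 2))) ≤
      6 * (1 / (j : ℝ) ^ 2) := by
    intro j hj
    rw [mem_Ico] at hj
    have hj0 : (0 : ℝ) < j := by
      have : 0 < j := by omega
      exact_mod_cast this
    have h2 : 4 * 2 ^ j / (j : ℝ) * (1 / (2 ^ j * (j * Real.log 2))) =
        4 / Real.log 2 * (1 / (j : ℝ) ^ 2) := by
      field_simp
    rw [h2]
    refine mul_le_mul_of_nonneg_right ?_ (by positivity)
    rw [div_le_iff₀ hl0]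
    linarith
  refine (sum_le_sum h1).trans ?_
  rw [← mul_sum]
  have h2 := sum_inv_sq (K := J) (M := M) hJ1
  have hlZ : 0 < Real.log Z := Real.log_pos (by exact_mod_cast (by omega : 1 < Z))
  have h3 := log_J hZ
  rw [← hJ] at h3
  have h4 : 6 * (2 / (J : ℝ)) ≤ 17 / Real.log Z := by
    rw [mul_div_assoc', div_le_div_iff₀ hJ0 hlZ]
    nlinarith
  linarith

/-- `∑ log p / p^{1 + 2y}`. -/
lemma sum_lp (F : Finset ℕ) (hF : ∀ p ∈ F, p.Prime) {y : ℝ} (hy : 0 < y) :
    ∑ p ∈ F, Real.log p / p * ((p : ℝ) ^ (-y)) ^ 2 ≤ 4 / y := by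
  have hl2 := log2_ge
  have hl0 : 0 < Real.log 2 := by linarith
  set r : ℝ := ((2 : ℝ) ^ (-y)) ^ 2 with hr
  have hr0 : 0 < r := by positivity
  have hr1 : r < 1 := by
    rw [hr, sq_lt_one_iff₀ (by positivity)]
    exact Real.rpow_lt_one_of_one_lt_of_neg (by norm_num) (by linarith)
  have hpow : ∀ j : ℕ, ((((2 : ℝ) ^ j)) ^ (-y)) ^ 2 = r ^ j := by
    intro j
    rw [hr, ← Real.rpow_pow_comm (by norm_num) (-y) j, ← pow_mul, ← pow_mul, mul_comm]
  obtain ⟨M, hM⟩ := sum_blocks F hF (J := 1)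
    (fun p hp => Nat.log_pos (by norm_num) (hF p hp).two_le)
    (fun p => Real.log p / p * ((p : ℝ) ^ (-y)) ^ 2)
    (fun j => 2 * j * Real.log 2 / 2 ^ j * r ^ j) (fun p hp => by
      have hp1 := hF p hp
      have h1 : 1 ≤ Nat.log 2 p := Nat.log_pos (by norm_num) hp1.two_le
      have hpj : (2 : ℝ) ^ Nat.log 2 p ≤ p := by
        exact_mod_cast Nat.pow_log_le_self 2 hp1.ne_zero
      have hp0 : (0 : ℝ) < p := by exact_mod_cast hp1.pos
      have h3 : ((p : ℝ) ^ (-y)) ^ 2 ≤ r ^ Nat.log 2 p := by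
        rw [← hpow]
        refine pow_le_pow_left₀ (by positivity) ?_ 2
        exact Real.rpow_le_rpow_of_nonpos (by positivity) hpj (by linarith)
      refine mul_le_mul ?_ h3 (by positivity) (by positivity)
      exact div_le_div₀ (by positivity) (log_le' hp1) (by positivity) hpj) (fun j => by positivity)
  refine hM.trans ?_
  have h1 : ∀ j ∈ Ico 1 M, 4 * 2 ^ j / (j : ℝ) * (2 * j * Real.log 2 / 2 ^ j * r ^ j) =
      8 * Real.log 2 * r ^ j := by
    intro j hj
    rw [mem_Ico] at hj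
    have hj0 : (j : ℝ) ≠ 0 := by
      have : j ≠ 0 := by omega
      exact_mod_cast this
    field_simp
    norm_num
  rw [sum_congr rfl h1, ← mul_sum]
  have h2 : ∑ j ∈ Ico 1 M, r ^ j ≤ r / (1 - r) := by
    have h3 : ∑ j ∈ Ico 1 M, r ^ j ≤ ∑' j : ℕ, r ^ (j + 1) := by
      rw [sum_Ico_eq_sum_range]
      have h4 : ∀ k, r ^ (1 + k) = r ^ (k + 1) := fun k => by rw [add_comm]
      simp_rw [h4]
      have hs : Summable fun j : ℕ => r ^ (j + 1) := by
        have := (summable_geometric_of_lt_one hr0.le hr1).mul_left r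
        refine this.congr fun j => ?_
        rw [pow_succ']
      exact hs.sum_le_tsum _ fun j _ => by positivity
    refine h3.trans (le_of_eq ?_)
    have h4 : ∀ j : ℕ, r ^ (j + 1) = r * r ^ j := fun j => pow_succ' r j
    simp_rw [h4]
    rw [tsum_mul_left, tsum_geometric_of_lt_one hr0.le hr1]
    rfl
  have h3 : r / (1 - r) ≤ 1 / (2 * y * Real.log 2) := by
    have h4 : r⁻¹ = Real.exp (2 * y * Real.log 2) := by
      rw [hr, Real.rpow_def_of_pos (by norm_num), ← Real.exp_nat_mul, ← Real.exp_neg]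
      congr 1
      push_cast
      ring
    have h5 : r / (1 - r) = 1 / (r⁻¹ - 1) := by
      field_simp
    rw [h5, h4]
    refine one_div_le_one_div_of_le (by positivity) ?_
    linarith [Real.add_one_le_exp (2 * y * Real.log 2)]
  calc 8 * Real.log 2 * ∑ j ∈ Ico 1 M, r ^ j ≤ 8 * Real.log 2 * (1 / (2 * y * Real.log 2)) := by
        gcongr
        exact h2.trans h3
    _ = 4 / y := by
        field_simp
        norm_num

/-- The value at a point. -/
lemma sob_real {f f' : ℝ → ℂ} (hf : ∀ t, HasDerivAt f (f' t) t) (hf' : Continuous f') (x : ℝ)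
    {η l : ℝ} (hη : 0 < η) (hl : 0 < l) :
    ‖f x‖ ^ 2 ≤ (1 / η + l) * (∫ t in (x - η / 2)..(x + η / 2), ‖f t‖ ^ 2) +
      1 / l * ∫ t in (x - η / 2)..(x + η / 2), ‖f' t‖ ^ 2 := by
  have hfc : Continuous f := continuous_iff_continuousAt.2 fun t => (hf t).continuousAt
  set a := x - η / 2 with ha
  set b := x + η / 2 with hb
  have hab : a ≤ b := by linarith
  set k : ℝ → ℝ := fun t => l * ‖f t‖ ^ 2 + 1 / l * ‖f' t‖ ^ 2 with hk
  have hkc : Continuous k := by fun_prop
  have hk0 : ∀ t, 0 ≤ k t := fun t => by rw [hk]; positivity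
  set g : ℝ → ℝ := fun t => ‖f t‖ ^ 2 with hg
  have hgc : Continuous g := by fun_prop
  have hgd : ∀ t, HasDerivAt g (2 * inner ℝ (f t) (f' t)) t := fun t => (hf t).norm_sq
  have hgk : ∀ t, ‖2 * inner ℝ (f t) (f' t)‖ ≤ k t := by
    intro t
    rw [norm_mul, Real.norm_two]
    have h1 : ‖inner ℝ (f t) (f' t)‖ ≤ ‖f t‖ * ‖f' t‖ := norm_inner_le_norm _ _
    have h2 : 2 * (‖f t‖ * ‖f' t‖) ≤ k t := by
      rw [hk]
      simp only
      have h3 : 0 ≤ (l * ‖f t‖ - ‖f' t‖) ^ 2 / l := by positivity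
      have h4 : (l * ‖f t‖ - ‖f' t‖) ^ 2 / l =
          l * ‖f t‖ ^ 2 + 1 / l * ‖f' t‖ ^ 2 - 2 * (‖f t‖ * ‖f' t‖) := by
        field_simp
        ring
      linarith
    linarith
  have hgdc : Continuous fun t => 2 * (inner ℝ (f t) (f' t) : ℝ) := by
    exact continuous_const.mul (hfc.inner hf')
  have hI : ∀ u ∈ Set.Icc a b, g x ≤ g u + ∫ t in a..b, k t := by
    intro u hu
    have hx : x ∈ Set.Icc a b := ⟨by linarith, by linarith⟩
    have h1 := intervalIntegral.integral_eq_sub_of_hasDerivAt (a := u) (b := x)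
      (fun t _ => hgd t) (hgdc.intervalIntegrable _ _)
    have h2 : ‖∫ t in u..x, 2 * (inner ℝ (f t) (f' t) : ℝ)‖ ≤ ∫ t in a..b, k t := by
      refine intervalIntegral.norm_integral_le_integral_norm_uIoc.trans ?_
      have hsub : Set.uIoc u x ⊆ Set.Ioc a b := by
        unfold Set.uIoc
        exact Set.Ioc_subset_Ioc (le_min hu.1 hx.1) (max_le hu.2 hx.2)
      have hki : IntegrableOn k (Set.Ioc a b) := (hkc.integrableOn_Icc).mono_set Set.Ioc_subset_Icc_self
      rw [intervalIntegral.integral_of_le hab]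
      calc ∫ t in Set.uIoc u x, ‖2 * (inner ℝ (f t) (f' t) : ℝ)‖ ≤ ∫ t in Set.uIoc u x, k t := by
            refine setIntegral_mono_on ?_ (hki.mono_set hsub) measurableSet_uIoc fun t _ => hgk t
            exact ((hgdc.norm.integrableOn_Icc (a := a) (b := b)).mono_set
              Set.Ioc_subset_Icc_self).mono_set hsub
        _ ≤ ∫ t in Set.Ioc a b, k t :=
            setIntegral_mono_set hki (Filter.Eventually.of_forall hk0) hsub.eventuallyLE
    rw [h1] at h2
    have := le_abs_self (g x - g u)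
    rw [Real.norm_eq_abs] at h2
    linarith
  have h1 : ∫ u in a..b, g x ≤ ∫ u in a..b, (g u + ∫ t in a..b, k t) :=
    intervalIntegral.integral_mono_on hab (by simp) ((hgc.add continuous_const).intervalIntegrable _ _)
      hI
  rw [intervalIntegral.integral_const, intervalIntegral.integral_add
    (hgc.intervalIntegrable _ _) (by simp), intervalIntegral.integral_const] at h1
  have hbaη : b - a = η := by rw [ha, hb]; ring
  rw [hbaη, smul_eq_mul, smul_eq_mul] at h1
  have h2 : ∫ t in a..b, k t = l * (∫ t in a..b, ‖f t‖ ^ 2) + 1 / l * ∫ t in a..b, ‖f' t‖ ^ 2 := by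
    rw [hk, intervalIntegral.integral_add ((by fun_prop : Continuous fun t => l * ‖f t‖ ^ 2).intervalIntegrable _ _)
      ((by fun_prop : Continuous fun t => 1 / l * ‖f' t‖ ^ 2).intervalIntegrable _ _),
      intervalIntegral.integral_const_mul, intervalIntegral.integral_const_mul]
  have h3 : g x ≤ 1 / η * (∫ u in a..b, g u) + ∫ t in a..b, k t := by
    have h4 : g x = 1 / η * (η * g x) := by field_simp
    rw [h4]
    calc 1 / η * (η * g x) ≤ 1 / η * ((∫ u in a..b, g u) + η * ∫ t in a..b, k t) :=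
          mul_le_mul_of_nonneg_left h1 (by positivity)
      _ = _ := by field_simp
  rw [h2] at h3
  have h5 : ∫ u in a..b, g u = ∫ t in a..b, ‖f t‖ ^ 2 := rfl
  rw [h5] at h3
  linarith

end Run7.h522.BD
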