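import Pool.Agent.Run7.h522.BD.Mot

/-!
# Values at well-spaced points
-/

set_option autoImplicit false

namespace Run7.h522.BD

open NumberField IsDedekindDomain Filter Topology MeasureTheory Pool.Agent.H921R2.TatePole
  Pool.Agent.W350.Edge Pool.Agent.W350.EdgeV Pool.Agent.W350.EdgeNF Pool.Agent.TH958.BV
  Run7.h522.BM Run7.h522.QA

lemma of_int {f : ℝ → ℂ} (hf : Continuous f) {a b : ℝ} (hab : a ≤ b) :
    ENNReal.ofReal (∫ t in a..b, ‖f t‖ ^ 2) = ∫⁻ t in Set.Ico a b, ‖f t‖ₑ ^ 2 := by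
  have hc : Continuous fun t => ‖f t‖ ^ 2 := by fun_prop
  have hi : IntegrableOn (fun t => ‖f t‖ ^ 2) (Set.Ico a b) :=
    (hc.integrableOn_Icc).mono_set Set.Ico_subset_Icc_self
  rw [intervalIntegral.integral_of_le hab, ← integral_Ico_eq_integral_Ioc,
    ofReal_integral_eq_lintegral_ofReal hi (Eventually.of_forall fun t => by positivity)]
  refine lintegral_congr fun t => ?_
  rw [← ofReal_norm, ENNReal.ofReal_pow (norm_nonneg _)]

lemma sob {f f' : ℝ → ℂ} (hf : ∀ t, HasDerivAt f (f' t) t) (hf' : Continuous f') (x : ℝ)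
    {η l : ℝ} (hη : 0 < η) (hl : 0 < l) :
    ENNReal.ofReal (‖f x‖ ^ 2) ≤
      ENNReal.ofReal (1 / η + l) * (∫⁻ t in Set.Ico (x - η / 2) (x + η / 2), ‖f t‖ₑ ^ 2) +
      ENNReal.ofReal (1 / l) * ∫⁻ t in Set.Ico (x - η / 2) (x + η / 2), ‖f' t‖ₑ ^ 2 := by
  have hfc : Continuous f := continuous_iff_continuousAt.2 fun t => (hf t).continuousAt
  have hab : x - η / 2 ≤ x + η / 2 := by linarith
  rw [← of_int hfc hab, ← of_int hf' hab, ← ENNReal.ofReal_mul (by positivity),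
    ← ENNReal.ofReal_mul (by positivity), ← ENNReal.ofReal_add]
  · exact ENNReal.ofReal_le_ofReal (sob_real hf hf' x hη hl)
  · refine mul_nonneg (by positivity) (intervalIntegral.integral_nonneg hab fun t _ => ?_)
    positivity
  · refine mul_nonneg (by positivity) (intervalIntegral.integral_nonneg hab fun t _ => ?_)
    positivity

/-- The intervals around well-spaced points. -/
lemma disj {η : ℝ} {Pt : Finset ℝ} (hs : ∀ a ∈ Pt, ∀ b ∈ Pt, a ≠ b → η ≤ |a - b|) :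
    Set.PairwiseDisjoint (Pt : Set ℝ) fun s => Set.Ico (s - η / 2) (s + η / 2) := by
  intro a ha b hb hab
  rw [Function.onFun, Set.disjoint_left]
  intro z hza hzb
  rw [Set.mem_Ico] at hza hzb
  have h1 := hs a ha b hb hab
  rcases le_abs.1 h1 with h2 | h2 <;> linarith

lemma sum_int {η R : ℝ} {Pt : Finset ℝ} (hs : ∀ a ∈ Pt, ∀ b ∈ Pt, a ≠ b → η ≤ |a - b|)
    (hR : ∀ a ∈ Pt, |a| + η / 2 ≤ R) (g : ℝ → ENNReal) :
    ∑ s ∈ Pt, ∫⁻ t in Set.Ico (s - η / 2) (s + η / 2), g t ≤ ∫⁻ t in Set.Icc (-R) R, g t := by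
  rw [← lintegral_biUnion_finset (disj hs) fun _ _ => measurableSet_Ico]
  refine lintegral_mono_set ?_
  intro z hz
  simp only [Set.mem_iUnion] at hz
  obtain ⟨s, hs', hz⟩ := hz
  rw [Set.mem_Ico] at hz
  have h1 := hR s hs'
  have h2 := neg_abs_le s
  have h3 := le_abs_self s
  exact ⟨by linarith, by linarith⟩

lemma card_pts {η T : ℝ} (hη : 0 < η) (hη1 : η ≤ 1) (hT : 1 ≤ T) {Pt : Finset ℝ}
    (hs : ∀ a ∈ Pt, ∀ b ∈ Pt, a ≠ b → η ≤ |a - b|) (hR : ∀ a ∈ Pt, |a| ≤ T) :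
    (Pt.card : ℝ) ≤ 3 * T / η := by
  have h1 := sum_int hs (R := T + 1 / 2) (fun a ha => by linarith [hR a ha]) fun _ => 1
  simp only [lintegral_const, one_mul, Measure.restrict_apply_univ, Real.volume_Ico,
    Real.volume_Icc] at h1
  have h2 : ∀ s : ℝ, s + η / 2 - (s - η / 2) = η := fun s => by ring
  simp_rw [h2] at h1
  rw [Finset.sum_const, nsmul_eq_mul, ← ENNReal.ofReal_natCast, ← ENNReal.ofReal_mul
    (Nat.cast_nonneg _), ENNReal.ofReal_le_ofReal_iff (by linarith)] at h1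
  rw [le_div_iff₀ hη]
  linarith

/-- The coefficients of the derivative. -/
noncomputable def db (b : ℕ → ℂ) (p : ℕ) : ℂ := b p * (-(Real.log p : ℂ) * Complex.I)

lemma norm_db (b : ℕ → ℂ) (p : ℕ) : ‖db b p‖ = Real.log p * ‖b p‖ := by
  unfold db
  rw [norm_mul, norm_mul, norm_neg, Complex.norm_I, mul_one, Complex.norm_real, Real.norm_eq_abs,
    abs_of_nonneg (Real.log_natCast_nonneg p), mul_comm]

lemma hasDeriv_ps (F : Finset ℕ) (b : ℕ → ℂ) {q : ℕ} (χ : DirichletCharacter ℂ q) (t : ℝ) :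
    HasDerivAt (ps F b χ) (ps F (db b) χ t) t := by
  unfold ps
  refine HasDerivAt.fun_sum fun p _ => ?_
  have h1 : HasDerivAt (fun t : ℝ => (((-(t * Real.log p) : ℝ) : ℂ) * Complex.I))
      (-(Real.log p : ℂ) * Complex.I) t := by
    have h2 : HasDerivAt (fun t : ℝ => (-(t * Real.log p) : ℝ)) (-(1 * Real.log p)) t :=
      ((hasDerivAt_id t).mul_const _).neg
    have h3 := (h2.ofReal_comp).mul_const Complex.I
    refine h3.congr_deriv ?_
    push_cast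
    ring
  have h4 := (h1.cexp).const_mul (b p * χ (p : ZMod q))
  refine h4.congr_deriv ?_
  unfold db
  ring

lemma cont_ps (F : Finset ℕ) (b : ℕ → ℂ) {q : ℕ} (χ : DirichletCharacter ℂ q) :
    Continuous (ps F b χ) :=
  continuous_iff_continuousAt.2 fun t => (hasDeriv_ps F b χ t).continuousAt

variable {K : Type} [Field K] [NumberField K] {i N : ℕ} {S : Set (HeightOneSpectrum (𝓞 K))}
  {α : HeightOneSpectrum (𝓞 K) → Fin N → ℂ}

lemma coef' (hα : Wt S i α) (Z X : ℕ) {y : ℝ} (hy : 0 < y) (t : ℝ) :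
    ∑ p ∈ FP Z X, (p : ℝ) / Real.log p * ‖db (bp S i α y t) p‖ ^ 2 ≤
      4 * (N * Module.finrank ℚ K) ^ 2 / y := by
  set D : ℝ := N * Module.finrank ℚ K with hD
  have h1 : ∀ p ∈ FP Z X, (p : ℝ) / Real.log p * ‖db (bp S i α y t) p‖ ^ 2 ≤
      D ^ 2 * (Real.log p / p * ((p : ℝ) ^ (-y)) ^ 2) := by
    intro p hp
    have hp1 := (mem_FP hp).1
    have hp0 : (0 : ℝ) < p := by exact_mod_cast hp1.pos
    have hl : 0 < Real.log p := Real.log_pos (by exact_mod_cast hp1.one_lt)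
    rw [norm_db]
    calc (p : ℝ) / Real.log p * (Real.log p * ‖bp S i α y t p‖) ^ 2
        ≤ (p : ℝ) / Real.log p * (Real.log p * (D / p * (p : ℝ) ^ (-y))) ^ 2 := by
          refine mul_le_mul_of_nonneg_left ?_ (by positivity)
          refine pow_le_pow_left₀ (by positivity) ?_ 2
          exact mul_le_mul_of_nonneg_left (norm_bp_le' hα y t hp1.one_le) hl.le
      _ = _ := by
          field_simp
  refine (Finset.sum_le_sum h1).trans ?_
  rw [← Finset.mul_sum]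
  calc D ^ 2 * ∑ p ∈ FP Z X, Real.log p / p * ((p : ℝ) ^ (-y)) ^ 2 ≤ D ^ 2 * (4 / y) := by
        refine mul_le_mul_of_nonneg_left ?_ (sq_nonneg _)
        exact sum_lp _ (fun p hp => (mem_FP hp).1) hy
    _ = _ := by ring

/-- The sum over the primes at well-spaced points. -/
lemma pts_ps (hα : Wt S i α) {Q : ℕ} (hQ : 1 ≤ Q) {T : ℝ} (hT : 1 ≤ T) {Z : ℕ}
    (hZ : (4 * (Q : ℝ) ^ 2 * T) ^ 2 ≤ Z) {y : ℝ} (hy : 0 < y) (t₀ : ℝ) (X : ℕ)
    (Pt : (q : ℕ) → DirichletCharacter ℂ (q + 1) → Finset ℝ)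
    (hR : ∀ q χ, ∀ a ∈ Pt q χ, |a| ≤ T)
    (hs : ∀ q χ, ∀ a ∈ Pt q χ, ∀ b ∈ Pt q χ, a ≠ b → y ≤ |a - b|) :
    ∑ q ∈ Finset.range Q, ∑ χ ∈ prim q, ∑ s ∈ Pt q χ,
      ‖ps (FP Z X) (bp S i α y t₀) χ s‖ ^ 2 ≤
      10 ^ 6 * (N * Module.finrank ℚ K) ^ 2 * (1 + 1 / (y * Real.log Z)) := by
  obtain ⟨hZ2, -, -⟩ := small hQ hT hZ
  have hT0 : 0 < T := by linarith
  have hQ1 : (1 : ℝ) ≤ Q := by exact_mod_cast hQ
  set D : ℝ := N * Module.finrank ℚ K with hD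
  have hlZ1 : 1 ≤ Real.log Z := by
    have h1 : (16 : ℝ) ≤ Z := by
      have hQ2 : (1 : ℝ) ≤ (Q : ℝ) ^ 2 := one_le_pow₀ hQ1
      have h2 : 1 ≤ (Q : ℝ) ^ 2 * T := by nlinarith
      have h3 : (4 * (Q : ℝ) ^ 2 * T) ^ 2 = 16 * ((Q : ℝ) ^ 2 * T) ^ 2 := by ring
      have h4 : 1 ≤ ((Q : ℝ) ^ 2 * T) ^ 2 := one_le_pow₀ h2
      linarith
    rw [Real.le_log_iff_exp_le (by linarith)]
    linarith [Real.exp_one_lt_d9]
  have hlZ : 0 < Real.log Z := by linarith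
  set η : ℝ := min y 1 with hη
  have hη0 : 0 < η := lt_min hy one_pos
  have hη1 : η ≤ 1 := min_le_right _ _
  have hηy : η ≤ y := min_le_left _ _
  have hη2 : 1 / η ≤ 1 + 1 / y := by
    rcases min_choice y 1 with h | h
    · rw [hη, h]
      linarith
    · rw [hη, h]
      have : 0 < 1 / y := by positivity
      linarith
  have hF : ∀ p ∈ FP Z X, p.Prime ∧ 4 * ((Q : ℝ) ^ 2 * (2 * T)) ^ 2 ≤ p := by
    intro p hp
    refine ⟨(mem_FP hp).1, ?_⟩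
    have h1 : (Z : ℝ) ≤ p := by exact_mod_cast (mem_FP hp).2
    have h2 : 4 * ((Q : ℝ) ^ 2 * (2 * T)) ^ 2 = (4 * (Q : ℝ) ^ 2 * T) ^ 2 := by ring
    linarith
  have hA := hls hQ (T := 2 * T) (by linarith) (FP Z X) hF (bp S i α y t₀)
  have hB := hls hQ (T := 2 * T) (by linarith) (FP Z X) hF (db (bp S i α y t₀))
  have hcA := coef hα hZ2 X hy.le t₀
  have hcB := coef' hα Z X hy t₀
  rw [← hD] at hcA hcB
  have h1 : ∀ (q : ℕ) (χ : DirichletCharacter ℂ (q + 1)),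
      ∑ s ∈ Pt q χ, ENNReal.ofReal (‖ps (FP Z X) (bp S i α y t₀) χ s‖ ^ 2) ≤
        ENNReal.ofReal (1 / η + 1 / y) *
          (∫⁻ t in Set.Icc (-(2 * T)) (2 * T), ‖ps (FP Z X) (bp S i α y t₀) χ t‖ₑ ^ 2) +
        ENNReal.ofReal y *
          (∫⁻ t in Set.Icc (-(2 * T)) (2 * T), ‖ps (FP Z X) (db (bp S i α y t₀)) χ t‖ₑ ^ 2) := by
    intro q χ
    have hs' : ∀ a ∈ Pt q χ, ∀ b ∈ Pt q χ, a ≠ b → η ≤ |a - b| := fun a ha b hb hab =>
      hηy.trans (hs q χ a ha b hb hab)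
    have hR' : ∀ a ∈ Pt q χ, |a| + η / 2 ≤ 2 * T := fun a ha => by
      have := hR q χ a ha
      linarith
    calc ∑ s ∈ Pt q χ, ENNReal.ofReal (‖ps (FP Z X) (bp S i α y t₀) χ s‖ ^ 2)
        ≤ ∑ s ∈ Pt q χ, (ENNReal.ofReal (1 / η + 1 / y) *
          (∫⁻ t in Set.Ico (s - η / 2) (s + η / 2), ‖ps (FP Z X) (bp S i α y t₀) χ t‖ₑ ^ 2) +
          ENNReal.ofReal y * (∫⁻ t in Set.Ico (s - η / 2) (s + η / 2),
            ‖ps (FP Z X) (db (bp S i α y t₀)) χ t‖ₑ ^ 2)) := by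
          refine Finset.sum_le_sum fun s _ => ?_
          have h2 := sob (hasDeriv_ps (FP Z X) (bp S i α y t₀) χ)
            (cont_ps (FP Z X) (db (bp S i α y t₀)) χ) s hη0 (l := 1 / y) (by positivity)
          rwa [one_div_one_div] at h2
      _ = ENNReal.ofReal (1 / η + 1 / y) *
          (∑ s ∈ Pt q χ, ∫⁻ t in Set.Ico (s - η / 2) (s + η / 2),
            ‖ps (FP Z X) (bp S i α y t₀) χ t‖ₑ ^ 2) +
          ENNReal.ofReal y * (∑ s ∈ Pt q χ, ∫⁻ t in Set.Ico (s - η / 2) (s + η / 2),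
            ‖ps (FP Z X) (db (bp S i α y t₀)) χ t‖ₑ ^ 2) := by
          rw [Finset.sum_add_distrib, Finset.mul_sum, Finset.mul_sum]
      _ ≤ _ := by
          gcongr
          · exact sum_int hs' hR' _
          · exact sum_int hs' hR' _
  have hsum0 : 0 ≤ 10 ^ 6 * D ^ 2 * (1 + 1 / (y * Real.log Z)) := by positivity
  rw [← ENNReal.ofReal_le_ofReal_iff hsum0]
  rw [ENNReal.ofReal_sum_of_nonneg fun q _ => Finset.sum_nonneg fun χ _ =>
    Finset.sum_nonneg fun s _ => by positivity]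
  calc ∑ q ∈ Finset.range Q, ENNReal.ofReal (∑ χ ∈ prim q, ∑ s ∈ Pt q χ,
      ‖ps (FP Z X) (bp S i α y t₀) χ s‖ ^ 2)
      = ∑ q ∈ Finset.range Q, ∑ χ ∈ prim q, ∑ s ∈ Pt q χ,
        ENNReal.ofReal (‖ps (FP Z X) (bp S i α y t₀) χ s‖ ^ 2) := by
        refine Finset.sum_congr rfl fun q _ => ?_
        rw [ENNReal.ofReal_sum_of_nonneg fun χ _ => Finset.sum_nonneg fun s _ => by positivity]
        refine Finset.sum_congr rfl fun χ _ => ?_
        rw [ENNReal.ofReal_sum_of_nonneg fun s _ => by positivity]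
    _ ≤ ∑ q ∈ Finset.range Q, ∑ χ ∈ prim q, (ENNReal.ofReal (1 / η + 1 / y) *
          (∫⁻ t in Set.Icc (-(2 * T)) (2 * T), ‖ps (FP Z X) (bp S i α y t₀) χ t‖ₑ ^ 2) +
        ENNReal.ofReal y *
          (∫⁻ t in Set.Icc (-(2 * T)) (2 * T), ‖ps (FP Z X) (db (bp S i α y t₀)) χ t‖ₑ ^ 2)) :=
        Finset.sum_le_sum fun q _ => Finset.sum_le_sum fun χ _ => h1 q χ
    _ = ENNReal.ofReal (1 / η + 1 / y) * (∑ q ∈ Finset.range Q, ∑ χ ∈ prim q,
          ∫⁻ t in Set.Icc (-(2 * T)) (2 * T), ‖ps (FP Z X) (bp S i α y t₀) χ t‖ₑ ^ 2) +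
        ENNReal.ofReal y * (∑ q ∈ Finset.range Q, ∑ χ ∈ prim q,
          ∫⁻ t in Set.Icc (-(2 * T)) (2 * T), ‖ps (FP Z X) (db (bp S i α y t₀)) χ t‖ₑ ^ 2) := by
        simp_rw [Finset.sum_add_distrib, Finset.mul_sum]
    _ ≤ ENNReal.ofReal (1 / η + 1 / y) * ENNReal.ofReal (26880 * (17 * D ^ 2 / Real.log Z)) +
        ENNReal.ofReal y * ENNReal.ofReal (26880 * (4 * D ^ 2 / y)) := by
        refine add_le_add (mul_le_mul_right ?_ _) (mul_le_mul_right ?_ _)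
        · exact hA.trans (ENNReal.ofReal_le_ofReal (by gcongr))
        · exact hB.trans (ENNReal.ofReal_le_ofReal (by gcongr))
    _ = ENNReal.ofReal ((1 / η + 1 / y) * (26880 * (17 * D ^ 2 / Real.log Z)) +
        y * (26880 * (4 * D ^ 2 / y))) := by
        rw [← ENNReal.ofReal_mul (by positivity), ← ENNReal.ofReal_mul hy.le,
          ← ENNReal.ofReal_add (by positivity) (by positivity)]
    _ ≤ _ := by
        refine ENNReal.ofReal_le_ofReal ?_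
        have h2 : y * (26880 * (4 * D ^ 2 / y)) = 107520 * D ^ 2 := by
          field_simp
          ring
        have h3 : (1 / η + 1 / y) * (26880 * (17 * D ^ 2 / Real.log Z)) ≤
            (1 + 2 / y) * (456960 * (D ^ 2 / Real.log Z)) := by
          have h4 : 26880 * (17 * D ^ 2 / Real.log Z) = 456960 * (D ^ 2 / Real.log Z) := by ring
          rw [h4]
          refine mul_le_mul_of_nonneg_right ?_ (by positivity)
          have : 2 / y = 1 / y + 1 / y := by ring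
          linarith
        have h4 : D ^ 2 / Real.log Z ≤ D ^ 2 := div_le_self (sq_nonneg _) hlZ1
        have h5 : (1 + 2 / y) * (456960 * (D ^ 2 / Real.log Z)) =
            456960 * (D ^ 2 / Real.log Z) + 913920 * (D ^ 2 * (1 / (y * Real.log Z))) := by
          field_simp
          ring
        have h6 : 0 ≤ D ^ 2 * (1 / (y * Real.log Z)) := by positivity
        have h7 : 10 ^ 6 * D ^ 2 * (1 + 1 / (y * Real.log Z)) =
            10 ^ 6 * D ^ 2 + 10 ^ 6 * (D ^ 2 * (1 / (y * Real.log Z))) := by ring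
        have h8 := sq_nonneg D
        rw [h2, h7]
        linarith

/-- The tails at well-spaced points. -/
lemma pts_tl (hα : Wt S i α) {Q : ℕ} (hQ : 1 ≤ Q) {T : ℝ} (hT : 1 ≤ T) {Z : ℕ}
    (hZ : (4 * (Q : ℝ) ^ 2 * T) ^ 2 ≤ Z) {y : ℝ} (hy : 0 < y) (t₀ : ℝ) (X : ℕ)
    (Pt : (q : ℕ) → DirichletCharacter ℂ (q + 1) → Finset ℝ)
    (hR : ∀ q χ, ∀ a ∈ Pt q χ, |a| ≤ T)
    (hs : ∀ q χ, ∀ a ∈ Pt q χ, ∀ b ∈ Pt q χ, a ≠ b → y ≤ |a - b|) :
    ∑ q ∈ Finset.range Q, ∑ χ ∈ prim q, ∑ s ∈ Pt q χ,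
      ‖tl S i α Z X χ y (t₀ + s)‖ ^ 2 ≤
      3 * 10 ^ 6 * (N * Module.finrank ℚ K) ^ 2 * (1 + 1 / (y * Real.log Z)) := by
  have h0 := pts_ps hα hQ hT hZ hy t₀ X Pt hR hs
  obtain ⟨hZ2, hsm1, hsm2⟩ := small hQ hT hZ
  have hT0 : 0 < T := by linarith
  have hlZ : 0 < Real.log Z := Real.log_pos (by exact_mod_cast (by omega : 1 < Z))
  have hZ0 : (0 : ℝ) < Z := by
    have : 0 < Z := by omega
    exact_mod_cast this
  set D : ℝ := N * Module.finrank ℚ K with hD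
  set η : ℝ := min y 1 with hη
  have hη0 : 0 < η := lt_min hy one_pos
  have hη1 : η ≤ 1 := min_le_right _ _
  have hηy : η ≤ y := min_le_left _ _
  have hη2 : 1 / η ≤ 1 + 1 / y := by
    rcases min_choice y 1 with h | h
    · rw [hη, h]
      linarith
    · rw [hη, h]
      have : 0 < 1 / y := by positivity
      linarith
  have h1 : ∀ (q : ℕ) (χ : DirichletCharacter ℂ (q + 1)),
      ∑ s ∈ Pt q χ, ‖tl S i α Z X χ y (t₀ + s)‖ ^ 2 ≤
        2 * (∑ s ∈ Pt q χ, ‖ps (FP Z X) (bp S i α y t₀) χ s‖ ^ 2) +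
          3 * T * (1 + 1 / y) * (72 * D ^ 2 / Z) := by
    intro q χ
    have h2 : ∀ s ∈ Pt q χ, ‖tl S i α Z X χ y (t₀ + s)‖ ^ 2 ≤
        2 * ‖ps (FP Z X) (bp S i α y t₀) χ s‖ ^ 2 + 72 * D ^ 2 / Z := by
      intro s _
      have h3 := add_sq_le (ps (FP Z X) (bp S i α y t₀) χ s)
        (tl S i α Z X χ y (t₀ + s) - ps (FP Z X) (bp S i α y t₀) χ s)
      rw [add_sub_cancel] at h3
      have h4 := tl_split hα χ (by omega : 1 ≤ Z) X hy.le t₀ s
      rw [← hD] at h4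
      have h5 : 72 * D ^ 2 / (Z : ℝ) = 2 * (36 * D ^ 2 / Z) := by ring
      rw [h5]
      linarith
    refine (Finset.sum_le_sum h2).trans ?_
    rw [Finset.sum_add_distrib, ← Finset.mul_sum, Finset.sum_const, nsmul_eq_mul]
    have h3 := card_pts hη0 hη1 hT (fun a ha b hb hab => hηy.trans (hs q χ a ha b hb hab))
      (hR q χ)
    have h4 : ((Pt q χ).card : ℝ) ≤ 3 * T * (1 + 1 / y) := by
      refine h3.trans ?_
      rw [div_eq_mul_one_div]
      exact mul_le_mul_of_nonneg_left hη2 (by positivity)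
    have h5 : ((Pt q χ).card : ℝ) * (72 * D ^ 2 / Z) ≤ 3 * T * (1 + 1 / y) * (72 * D ^ 2 / Z) :=
      mul_le_mul_of_nonneg_right h4 (by positivity)
    linarith
  have h2 : ∑ q ∈ Finset.range Q, ∑ χ ∈ prim q, ∑ s ∈ Pt q χ,
      ‖tl S i α Z X χ y (t₀ + s)‖ ^ 2 ≤
      2 * (∑ q ∈ Finset.range Q, ∑ χ ∈ prim q, ∑ s ∈ Pt q χ,
        ‖ps (FP Z X) (bp S i α y t₀) χ s‖ ^ 2) +
        (Q : ℝ) ^ 2 * (3 * T * (1 + 1 / y) * (72 * D ^ 2 / Z)) := by
    calc _ ≤ ∑ q ∈ Finset.range Q, ∑ χ ∈ prim q,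
          (2 * (∑ s ∈ Pt q χ, ‖ps (FP Z X) (bp S i α y t₀) χ s‖ ^ 2) +
          3 * T * (1 + 1 / y) * (72 * D ^ 2 / Z)) :=
          Finset.sum_le_sum fun q _ => Finset.sum_le_sum fun χ _ => h1 q χ
      _ = 2 * (∑ q ∈ Finset.range Q, ∑ χ ∈ prim q, ∑ s ∈ Pt q χ,
        ‖ps (FP Z X) (bp S i α y t₀) χ s‖ ^ 2) +
          (∑ q ∈ Finset.range Q, ((prim q).card : ℝ)) *
            (3 * T * (1 + 1 / y) * (72 * D ^ 2 / Z)) := by
          simp_rw [Finset.sum_add_distrib, Finset.mul_sum, Finset.sum_mul, Finset.sum_const,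
            nsmul_eq_mul]
      _ ≤ _ := by
          gcongr
          exact card_prim Q
  refine h2.trans ?_
  have h3 : (Q : ℝ) ^ 2 * (3 * T * (1 + 1 / y) * (72 * D ^ 2 / Z)) =
      216 * D ^ 2 * ((Q : ℝ) ^ 2 * T / Z) + 216 * D ^ 2 * (1 / y) * ((Q : ℝ) ^ 2 * T / Z) := by
    ring
  have h4 : 216 * D ^ 2 * ((Q : ℝ) ^ 2 * T / Z) ≤ 216 * D ^ 2 * (1 / 16) := by gcongr
  have h5 : 216 * D ^ 2 * (1 / y) * ((Q : ℝ) ^ 2 * T / Z) ≤
      216 * D ^ 2 * (1 / y) * (1 / (2 * Real.log Z)) := by gcongr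
  have h6 : 216 * D ^ 2 * (1 / y) * (1 / (2 * Real.log Z)) =
      108 * (D ^ 2 * (1 / (y * Real.log Z))) := by
    field_simp
    ring
  have h7 : 3 * 10 ^ 6 * D ^ 2 * (1 + 1 / (y * Real.log Z)) =
      3 * 10 ^ 6 * D ^ 2 + 3 * 10 ^ 6 * (D ^ 2 * (1 / (y * Real.log Z))) := by ring
  have h8 : 10 ^ 6 * D ^ 2 * (1 + 1 / (y * Real.log Z)) =
      10 ^ 6 * D ^ 2 + 10 ^ 6 * (D ^ 2 * (1 / (y * Real.log Z))) := by ring
  have h9 := sq_nonneg D
  have h10 : 0 ≤ D ^ 2 * (1 / (y * Real.log Z)) := by positivity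
  rw [h7, h3]
  rw [h8] at h0
  linarith

end Run7.h522.BD
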